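import Pool.Agent.U540.PU.Stm

/-!
# Project PU (helper540), package FUA (helper789)

Two inequalities for the ordered Bell numbers.
-/

set_option autoImplicit false

namespace Pool.Agent.U540.PU

namespace FUAAux

theorem finPt (k : ℕ) : Finite (Pt k) := by
  unfold Pt
  infer_instance

/-- which elements are below the last one -/
def lo {k : ℕ} (s : Fin k → Fin k → Prop) : Fin k ⊕ Option (Fin k) → Fin k → Prop
  | Sum.inl i, j => s j i
  | Sum.inr (some i), j => s j i
  | Sum.inr none, _ => False

/-- which elements are above the last one -/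
def up {k : ℕ} (s : Fin k → Fin k → Prop) : Fin k ⊕ Option (Fin k) → Fin k → Prop
  | Sum.inl i, j => s i j
  | Sum.inr (some i), j => ¬ s j i
  | Sum.inr none, _ => True

/-- the restriction -/
def res {k : ℕ} (r : Pt (k + 1)) : Pt k :=
  ⟨fun i j => r.1 i.castSucc j.castSucc, fun _ => r.2.1 _, fun _ _ _ => r.2.2.1 _ _ _,
    fun _ _ => r.2.2.2 _ _⟩

theorem ex_code {k : ℕ} (r : Pt (k + 1)) : ∃ c : Fin k ⊕ Option (Fin k), ∀ j : Fin k,
    (r.1 j.castSucc (Fin.last k) ↔ lo (res r).1 c j) ∧
      (r.1 (Fin.last k) j.castSucc ↔ up (res r).1 c j) := by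
  classical
  obtain ⟨r, h1, h2, h3⟩ := r
  by_cases ha : ∃ i : Fin k, r i.castSucc (Fin.last k) ∧ r (Fin.last k) i.castSucc
  · obtain ⟨i, hi1, hi2⟩ := ha
    exact ⟨Sum.inl i, fun j => ⟨⟨fun h => h2 _ _ _ h hi2, fun h => h2 _ _ _ h hi1⟩,
      ⟨fun h => h2 _ _ _ hi1 h, fun h => h2 _ _ _ hi2 h⟩⟩⟩
  · by_cases hb : ∃ i : Fin k, r i.castSucc (Fin.last k)
    · obtain ⟨i0, hi0⟩ := hb
      obtain ⟨i, hi, hmax⟩ := Finset.exists_max_image
        (Finset.univ.filter fun i : Fin k => r i.castSucc (Fin.last k))
        (fun i => (Finset.univ.filter fun j : Fin k => r j.castSucc i.castSucc).card)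
        ⟨i0, Finset.mem_filter.2 ⟨Finset.mem_univ _, hi0⟩⟩
      have hi' : r i.castSucc (Fin.last k) := (Finset.mem_filter.1 hi).2
      have hm : ∀ j : Fin k, r j.castSucc (Fin.last k) → r j.castSucc i.castSucc := by
        intro j hj
        by_contra hcon
        have hij : r i.castSucc j.castSucc := (h3 _ _).resolve_right hcon
        have h5 := hmax j (Finset.mem_filter.2 ⟨Finset.mem_univ _, hj⟩)
        have h6 : (Finset.univ.filter fun l : Fin k => r l.castSucc i.castSucc) ⊂
            Finset.univ.filter fun l : Fin k => r l.castSucc j.castSucc := by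
          rw [Finset.ssubset_iff_of_subset]
          · refine ⟨j, Finset.mem_filter.2 ⟨Finset.mem_univ _, h1 _⟩, fun h => ?_⟩
            exact hcon (Finset.mem_filter.1 h).2
          · intro l hl
            exact Finset.mem_filter.2 ⟨Finset.mem_univ _,
              h2 _ _ _ (Finset.mem_filter.1 hl).2 hij⟩
        exact absurd (Finset.card_lt_card h6) (not_lt.2 h5)
      exact ⟨Sum.inr (some i), fun j => ⟨⟨fun h => hm j h, fun h => h2 _ _ _ h hi'⟩,
        ⟨fun h hc => ha ⟨j, h2 _ _ _ hc hi', h⟩,
          fun h => (h3 _ _).resolve_right fun hj => h (hm j hj)⟩⟩⟩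
    · exact ⟨Sum.inr none, fun j => ⟨⟨fun h => hb ⟨j, h⟩, fun h => h.elim⟩,
        ⟨fun _ => trivial, fun _ => (h3 _ _).resolve_right fun h => hb ⟨j, h⟩⟩⟩⟩

theorem one (k : ℕ) : fub (k + 1) ≤ (2 * k + 1) * fub k := by
  classical
  have := finPt k
  choose c hc using fun r : Pt (k + 1) => ex_code r
  have hinj : Function.Injective fun r : Pt (k + 1) => (c r, res r) := by
    intro r r' h
    have e1 : c r = c r' := congrArg Prod.fst h
    have e2 : res r = res r' := congrArg Prod.snd h
    apply Subtype.ext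
    funext i j
    apply propext
    induction i using Fin.lastCases with
    | last =>
      induction j using Fin.lastCases with
      | last => exact ⟨fun _ => r'.2.1 _, fun _ => r.2.1 _⟩
      | cast j => rw [(hc r j).2, (hc r' j).2, e1, e2]
    | cast i =>
      induction j using Fin.lastCases with
      | last => rw [(hc r i).1, (hc r' i).1, e1, e2]
      | cast j =>
        have e3 := congrArg (fun s : Pt k => s.1 i j) e2
        exact iff_of_eq e3
  have h1 := Nat.card_le_card_of_injective _ hinj
  unfold fub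
  refine h1.trans_eq ?_
  rw [Nat.card_prod, Nat.card_sum, Nat.card_eq_fintype_card, Nat.card_eq_fintype_card,
    Fintype.card_option, Fintype.card_fin]
  congr 1
  omega

/-- the map on `Fin (k + 16)` -/
def ext {k : ℕ} (f : Fin k → Fin 16) : Fin (k + 16) → Fin 16 := Fin.addCases f id

theorem two (k : ℕ) : 16 ^ k ≤ fub (k + 16) := by
  have := finPt (k + 16)
  let F : (Fin k → Fin 16) → Pt (k + 16) := fun f =>
    ⟨fun i j => ext f i ≤ ext f j, fun _ => le_rfl, fun _ _ _ => le_trans, fun _ _ => le_total _ _⟩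
  have hinj : Function.Injective F := by
    intro f g h
    funext i
    have e : ∀ a b, (ext f a ≤ ext f b) = (ext g a ≤ ext g b) := fun a b =>
      congrArg (fun s : Pt (k + 16) => s.1 a b) h
    have e1 := e (Fin.castAdd 16 i) (Fin.natAdd k (f i))
    have e2 := e (Fin.natAdd k (f i)) (Fin.castAdd 16 i)
    unfold ext at e1 e2
    rw [Fin.addCases_left, Fin.addCases_left, Fin.addCases_right, Fin.addCases_right] at e1 e2
    have l1 : g i ≤ f i := by
      have := e1.mp le_rfl
      exact this
    have l2 : f i ≤ g i := by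
      have := e2.mp le_rfl
      exact this
    exact le_antisymm l2 l1
  have h1 := Nat.card_le_card_of_injective F hinj
  have h2 : Nat.card (Fin k → Fin 16) = 16 ^ k := by
    rw [Nat.card_eq_fintype_card, Fintype.card_fun, Fintype.card_fin, Fintype.card_fin]
  rw [h2] at h1
  exact h1

end FUAAux

theorem FUA_ok : S_FUA := ⟨FUAAux.one, FUAAux.two, FUAAux.finPt⟩

end Pool.Agent.U540.PU
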