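import Pool.Agent.U540.PU.Stm

/-! Project PU, package FUB (helper574; after package BLB of project PT by helper461). -/

set_option autoImplicit false
namespace Pool.Agent.U540.PU

namespace FUBAux

open Filter Topology

theorem ev1 (δ : ℝ) (hδ : 0 < δ) : ∀ᶠ n : ℕ in atTop, Real.exp (-(δ ^ 2 * 2 ^ n)) ≤ δ := by
  have h1 : Tendsto (fun n : ℕ => δ ^ 2 * (2 : ℝ) ^ n) atTop atTop :=
    Tendsto.const_mul_atTop (by positivity) (tendsto_pow_atTop_atTop_of_one_lt (by norm_num))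
  have h2 : Tendsto (fun n : ℕ => Real.exp (-(δ ^ 2 * 2 ^ n))) atTop (𝓝 0) :=
    Real.tendsto_exp_neg_atTop_nhds_zero.comp h1
  exact h2.eventually_le_const hδ

theorem ev2 (δ : ℝ) (hδ : 0 < δ) : ∀ᶠ n : ℕ in atTop, (2 : ℝ) ^ (n + 18) / 8 ^ n ≤ δ / 2 := by
  have h1 : Tendsto (fun n : ℕ => (2 : ℝ) ^ 18 * (1 / 4 : ℝ) ^ n) atTop (𝓝 0) := by
    have := (tendsto_pow_atTop_nhds_zero_of_lt_one (by norm_num : (0 : ℝ) ≤ 1 / 4)
      (by norm_num)).const_mul ((2 : ℝ) ^ 18)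
    simpa using this
  have h2 := h1.eventually_le_const (by positivity : 0 < δ / 2)
  refine h2.mono fun n hn => ?_
  refine le_trans (le_of_eq ?_) hn
  have h3 : (8 : ℝ) ^ n = 2 ^ n * 4 ^ n := by
    rw [← mul_pow]; norm_num
  rw [h3, pow_add, one_div, inv_pow]
  field_simp

theorem ev3 (δ : ℝ) (hδ : 0 < δ) :
    ∀ᶠ n : ℕ in atTop, 2 * ((n + 18 : ℕ) : ℝ) ^ 2 / 4 ^ n ≤ δ / 2 := by
  have h1 : Tendsto (fun n : ℕ => (2 * 4 ^ 18 : ℝ) * (((n + 18 : ℕ) : ℝ) ^ 2 / 4 ^ (n + 18)))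
      atTop (𝓝 0) := by
    have := ((tendsto_pow_const_div_const_pow_of_one_lt 2 (by norm_num : (1 : ℝ) < 4)).comp
      (tendsto_add_atTop_nat 18)).const_mul (2 * 4 ^ 18 : ℝ)
    simpa using this
  have h2 := h1.eventually_le_const (by positivity : 0 < δ / 2)
  refine h2.mono fun n hn => ?_
  refine le_trans (le_of_eq ?_) hn
  rw [pow_add (4 : ℝ) n 18]
  field_simp

end FUBAux

open FUBAux in
theorem FUB_ok : S_FUB := by
  intro hA δ hδ
  obtain ⟨n0, hn0⟩ := Filter.eventually_atTop.1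
    ((ev1 δ hδ).and ((ev2 δ hδ).and (ev3 (δ / 4) (by positivity))))
  refine ⟨n0 + 18, ?_⟩
  intro k hk ε hε0 hε1
  obtain ⟨n, rfl⟩ : ∃ n, k = n + 18 := ⟨k - 18, by omega⟩
  obtain ⟨e1, e2, e3⟩ := hn0 n (by omega)
  have hk2 : n + 18 - 2 = n + 16 := by omega
  rw [hk2]
  have hb : (16 : ℝ) ^ n ≤ (fub (n + 16) : ℝ) := by exact_mod_cast hA.2.1 n
  have hbb : (fub (n + 18) : ℝ) ≤ 4 * ((n + 18 : ℕ) : ℝ) ^ 2 * (fub (n + 16) : ℝ) := by
    have h1 := hA.1 (n + 17)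
    have h2 := hA.1 (n + 16)
    have h3 : fub (n + 18) ≤ 4 * (n + 18) ^ 2 * fub (n + 16) := by
      calc fub (n + 18) ≤ (2 * (n + 17) + 1) * fub (n + 17) := h1
        _ ≤ (2 * (n + 17) + 1) * ((2 * (n + 16) + 1) * fub (n + 16)) := Nat.mul_le_mul_left _ h2
        _ = ((2 * (n + 17) + 1) * (2 * (n + 16) + 1)) * fub (n + 16) := (mul_assoc _ _ _).symm
        _ ≤ 4 * (n + 18) ^ 2 * fub (n + 16) := Nat.mul_le_mul_right _ (by nlinarith)
    exact_mod_cast h3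
  generalize (fub (n + 18) : ℝ) = c at hbb ⊢
  generalize (fub (n + 16) : ℝ) = b at hb hbb ⊢
  have hb0 : 0 < b := lt_of_lt_of_le (by positivity) hb
  obtain ⟨s, hs⟩ : ∃ s : ℝ, s = b ^ (1 / 4 : ℝ) := ⟨_, rfl⟩
  have hs0 : 0 < s := by rw [hs]; positivity
  have hs4 : s ^ 4 = b := by
    rw [hs, ← Real.rpow_natCast, ← Real.rpow_mul hb0.le]
    norm_num
  have hs2 : (2 : ℝ) ^ n ≤ s := by
    have h1 : ((2 : ℝ) ^ n) ^ 4 ≤ s ^ 4 := by
      rw [hs4, ← pow_mul, mul_comm, pow_mul]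
      norm_num
      exact hb
    exact (pow_le_pow_iff_left₀ (by positivity) hs0.le (by norm_num)).1 h1
  rcases le_or_gt (1 / s ^ 3) ε with h | h
  · left
    refine le_trans (Real.exp_le_exp.2 ?_) e1
    apply neg_le_neg
    have h1 : s ≤ ε * b := by
      rw [div_le_iff₀ (by positivity)] at h
      calc s = 1 * s := (one_mul s).symm
        _ ≤ (ε * s ^ 3) * s := mul_le_mul_of_nonneg_right h hs0.le
        _ = ε * b := by rw [← hs4]; ring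
    have h2 : δ ^ 2 ≤ (1 - ε) ^ 2 := pow_le_pow_left₀ hδ.le (by linarith) 2
    calc δ ^ 2 * 2 ^ n ≤ (1 - ε) ^ 2 * (ε * b) :=
          mul_le_mul h2 (hs2.trans h1) (by positivity) (sq_nonneg _)
      _ = ε * (1 - ε) ^ 2 * b := by ring
  · right
    have h8 : (8 : ℝ) ^ n ≤ s ^ 3 := by
      have : (8 : ℝ) ^ n = (2 ^ n) ^ 3 := by
        rw [← pow_mul, mul_comm, pow_mul]; norm_num
      rw [this]
      exact pow_le_pow_left₀ (by positivity) hs2 3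
    have h4 : (4 : ℝ) ^ n ≤ s ^ 2 := by
      have : (4 : ℝ) ^ n = (2 ^ n) ^ 2 := by
        rw [← pow_mul, mul_comm, pow_mul]; norm_num
      rw [this]
      exact pow_le_pow_left₀ (by positivity) hs2 2
    have t1 : (2 : ℝ) ^ (n + 18) * ε ≤ δ / 2 := by
      refine le_trans ?_ e2
      rw [div_eq_mul_one_div]
      apply mul_le_mul_of_nonneg_left _ (by positivity)
      exact h.le.trans (one_div_le_one_div_of_le (by positivity) h8)
    have t2 : 2 * ε ^ 2 * c ≤ δ / 2 := by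
      have e3' : 4 * (2 * ((n + 18 : ℕ) : ℝ) ^ 2 / 4 ^ n) ≤ δ / 2 := by linarith
      refine le_trans ?_ e3'
      have h5 : ε ^ 2 ≤ (1 / s ^ 3) ^ 2 := pow_le_pow_left₀ hε0 h.le 2
      have h6 : ε ^ 2 * b ≤ 1 / s ^ 2 := by
        calc ε ^ 2 * b ≤ (1 / s ^ 3) ^ 2 * b := mul_le_mul_of_nonneg_right h5 hb0.le
          _ = 1 / s ^ 2 := by rw [← hs4]; field_simp
      have h7 : 1 / s ^ 2 ≤ 1 / 4 ^ n := one_div_le_one_div_of_le (by positivity) h4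
      calc 2 * ε ^ 2 * c ≤ 2 * ε ^ 2 * (4 * ((n + 18 : ℕ) : ℝ) ^ 2 * b) :=
            mul_le_mul_of_nonneg_left hbb (by positivity)
        _ = 8 * ((n + 18 : ℕ) : ℝ) ^ 2 * (ε ^ 2 * b) := by ring
        _ ≤ 8 * ((n + 18 : ℕ) : ℝ) ^ 2 * (1 / 4 ^ n) :=
            mul_le_mul_of_nonneg_left (h6.trans h7) (by positivity)
        _ = 4 * (2 * ((n + 18 : ℕ) : ℝ) ^ 2 / 4 ^ n) := by ring
    linarith

end Pool.Agent.U540.PU
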