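import Pool.Agent.U540.PU.Stm

/-!
# Project PU, package OCSP: the constraint satisfaction problem for full relations (helper97)
-/

set_option autoImplicit false
set_option linter.style.haveILetI false

namespace Pool.Agent.U540.PU

open Pool.Agent.W994.AR Pool.Agent.U540.BP

namespace OCSPAux

/-- a finite preorder has a monotone rank function, which separates nonequivalent elements -/
theorem rank_exists {X : Type} [Finite X] (r : X → X → Prop) (hr : ∀ x, r x x)
    (ht : ∀ x y z, r x y → r y z → r x z) :
    ∃ ρ : X → ℕ, (∀ x y, r x y → ρ x ≤ ρ y) ∧ ∀ x y, ρ x = ρ y → r x y ∧ r y x := by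
  classical
  letI : Preorder X :=
    { le := r
      le_refl := hr
      le_trans := ht }
  haveI : Finite (Antisymmetrization X (· ≤ ·)) :=
    inferInstanceAs (Finite (Quotient (AntisymmRel.setoid X (· ≤ ·))))
  haveI : Finite (LinearExtension (Antisymmetrization X (· ≤ ·))) :=
    inferInstanceAs (Finite (Antisymmetrization X (· ≤ ·)))
  letI : Fintype (LinearExtension (Antisymmetrization X (· ≤ ·))) := Fintype.ofFinite _
  let e := (monoEquivOfFin (LinearExtension (Antisymmetrization X (· ≤ ·))) rfl).symm
  refine ⟨fun x => (e (toLinearExtension (toAntisymmetrization (· ≤ ·) x)) : ℕ), ?_, ?_⟩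
  · intro x y h
    have h1 : toAntisymmetrization (· ≤ ·) x ≤ toAntisymmetrization (· ≤ ·) y :=
      toAntisymmetrization_le_toAntisymmetrization_iff.2 h
    have h2 := toLinearExtension.monotone h1
    exact e.monotone h2
  · intro x y h
    have h1 : e (toLinearExtension (toAntisymmetrization (· ≤ ·) x)) =
        e (toLinearExtension (toAntisymmetrization (· ≤ ·) y)) := Fin.ext h
    have h2 := e.injective h1
    have h3 : (toAntisymmetrization (· ≤ ·) x : Antisymmetrization X (· ≤ ·)) =
        toAntisymmetrization (· ≤ ·) y := h2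
    exact ⟨toAntisymmetrization_le_toAntisymmetrization_iff.1 h3.le,
      toAntisymmetrization_le_toAntisymmetrization_iff.1 h3.ge⟩

end OCSPAux

/-- Package OCSP. -/
theorem OCSP_ok : S_OCSP := by
  intro B E k R hF X _ 𝕏
  obtain ⟨hirr, htr, ⟨J, hJ⟩, hfull, hconst⟩ := hF
  have mem0 : ∀ w : Fin 2 → B, w ∈ otmpl E R (Sum.inl 0) ↔ E (w 0) (w 1) := by
    intro w
    show w ∈ ordBase E 0 ↔ _
    unfold ordBase
    rw [if_pos rfl]
    rfl
  have mem1 : ∀ w : Fin 2 → B, w ∈ otmpl E R (Sum.inl 1) ↔ (w 0 = w 1 ∨ E (w 0) (w 1)) := by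
    intro w
    show w ∈ ordBase E 1 ↔ _
    unfold ordBase
    rw [if_neg (by decide)]
    rfl
  have hl2 : ∀ l : Fin 2, l = 0 ∨ l = 1 := by decide
  constructor
  · rintro ⟨f, hf⟩
    have hmono : ∀ x y, Below 𝕏 x y → f x = f y ∨ E (f x) (f y) := by
      intro x y h
      induction h with
      | refl => exact Or.inl rfl
      | @tail b c _ hbc ih =>
        have h1 : f b = f c ∨ E (f b) (f c) := by
          obtain ⟨l, hl⟩ := hbc
          rcases hl2 l with rfl | rfl
          · exact Or.inr ((mem0 _).1 (hf (Sum.inl 0) _ hl))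
          · exact (mem1 _).1 (hf (Sum.inl 1) _ hl)
        rcases ih with h2 | h2
        · rw [h2]
          exact h1
        · rcases h1 with h3 | h3
          · rw [← h3]
            exact Or.inr h2
          · exact Or.inr (htr _ _ _ h2 h3)
    constructor
    · intro x y hxy hb
      have h1 : E (f x) (f y) := (mem0 _).1 (hf (Sum.inl 0) _ hxy)
      rcases hmono y x hb with h2 | h2
      · rw [h2] at h1
        exact hirr _ h1
      · exact hirr _ (htr _ _ _ h1 h2)
    · intro v hv hall
      have h1 : (fun j => f (v j)) ∈ R := hf (Sum.inr 0) v hv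
      have h2 : ∀ i j, f (v i) = f (v j) := by
        intro i j
        rcases hmono _ _ (hall i j) with h3 | h3
        · exact h3
        · rcases hmono _ _ (hall j i) with h4 | h4
          · exact h4.symm
          · exact absurd (htr _ _ _ h3 h4) (hirr _)
      rcases Nat.eq_zero_or_pos k with rfl | hk
      · refine ⟨J 0, ?_⟩
        have h3 : (fun _ : Fin 0 => J 0) = fun j => f (v j) := funext fun j => j.elim0
        rw [h3]
        exact h1
      · refine ⟨f (v ⟨0, hk⟩), ?_⟩
        have h3 : (fun _ : Fin k => f (v ⟨0, hk⟩)) = fun j => f (v j) := funext fun j => h2 _ j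
        rw [h3]
        exact h1
  · rintro ⟨hA, hC⟩
    obtain ⟨ρ, hρ1, hρ2⟩ := OCSPAux.rank_exists (Below 𝕏) (fun _ => Relation.ReflTransGen.refl)
      (fun _ _ _ h1 h2 => h1.trans h2)
    refine ⟨fun x => J (ρ x), ?_⟩
    have hstep : ∀ (l : Fin 2) (v : Fin 2 → X), v ∈ 𝕏 (Sum.inl l) → Below 𝕏 (v 0) (v 1) := by
      intro l v hv
      refine Relation.ReflTransGen.single ⟨l, ?_⟩
      have h1 : (![v 0, v 1] : Fin 2 → X) = v := by
        funext i
        rcases hl2 i with rfl | rfl <;> rfl
      rw [h1]
      exact hv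
    have hcmp : ∀ a b : ℕ, J a = J b ∨ E (J a) (J b) ∨ E (J b) (J a) := by
      intro a b
      rcases lt_trichotomy a b with h | h | h
      · exact Or.inr (Or.inl (hJ _ _ h))
      · exact Or.inl (by rw [h])
      · exact Or.inr (Or.inr (hJ _ _ h))
    have hinj : ∀ a b : ℕ, J a = J b → a = b := by
      intro a b hab
      rcases lt_trichotomy a b with h | h | h
      · have := hJ _ _ h
        rw [hab] at this
        exact absurd this (hirr _)
      · exact h
      · have := hJ _ _ h
        rw [hab] at this
        exact absurd this (hirr _)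
    intro i
    rcases i with l | l
    · intro (v : Fin 2 → X) (hv : v ∈ 𝕏 (Sum.inl l))
      rcases hl2 l with rfl | rfl
      · refine (mem0 _).2 ?_
        show E (J (ρ (v 0))) (J (ρ (v 1)))
        have h1 := hρ1 _ _ (hstep 0 v hv)
        have h2 : ρ (v 0) ≠ ρ (v 1) := by
          intro h
          refine hA (v 0) (v 1) ?_ (hρ2 _ _ h).2
          have h3 : (![v 0, v 1] : Fin 2 → X) = v := by
            funext i
            rcases hl2 i with rfl | rfl <;> rfl
          rw [h3]
          exact hv
        exact hJ _ _ (lt_of_le_of_ne h1 h2)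
      · refine (mem1 _).2 ?_
        show J (ρ (v 0)) = J (ρ (v 1)) ∨ E (J (ρ (v 0))) (J (ρ (v 1)))
        have h1 := hρ1 _ _ (hstep 1 v hv)
        rcases h1.lt_or_eq with h | h
        · exact Or.inr (hJ _ _ h)
        · exact Or.inl (by rw [h])
    · obtain rfl : l = 0 := Subsingleton.elim _ _
      intro (v : Fin k → X) (hv : v ∈ 𝕏 (Sum.inr 0))
      show (fun j : Fin k => J (ρ (v j))) ∈ R
      by_cases hnc : NC (fun j : Fin k => J (ρ (v j)))
      · exact hfull _ hnc fun i j => hcmp _ _
      · have h1 : ∀ i j : Fin k, J (ρ (v i)) = J (ρ (v j)) := by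
          intro i j
          by_contra hne
          exact hnc ⟨i, j, hne⟩
        obtain ⟨b, hb⟩ := hC v hv fun i j => (hρ2 _ _ (hinj _ _ (h1 i j))).1
        rcases Nat.eq_zero_or_pos k with rfl | hk
        · have h3 : (fun j : Fin 0 => J (ρ (v j))) = fun _ => b := funext fun j => j.elim0
          rw [h3]
          exact hb
        · have h3 : (fun j : Fin k => J (ρ (v j))) = fun _ => J (ρ (v ⟨0, hk⟩)) :=
            funext fun j => h1 j _
          rw [h3]
          exact hconst b _ hb

end Pool.Agent.U540.PU
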