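import Pool.Agent.U540.PU.Stm

/-!
# Project PU, package OGAD (helper140)
-/

set_option autoImplicit false

namespace Pool.Agent.U540.PU

open Pool.Agent.W994.AR

namespace OGADAux

section

variable {B ι : Type} {ar : ι → ℕ} {𝔸 : Str ι ar B} {S : B → B → B → Prop}

/-- one existential quantifier -/
theorem ex1 {V : Type} {D : Set (V ⊕ Unit → B)} (h : PP 𝔸 D) :
    PP 𝔸 {v : V → B | ∃ w : B, Sum.elim v (fun _ : Unit => w) ∈ D} := by
  convert h.ex using 1
  ext v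
  constructor
  · rintro ⟨w, hw⟩
    exact ⟨fun _ => w, hw⟩
  · rintro ⟨u, hu⟩
    exact ⟨u (), hu⟩

/-- membership in a chain of three constants -/
def M3 (S : B → B → B → Prop) (a b c w : B) : Prop := ∃ w₁, S a w₁ b ∧ S w₁ w c

/-- membership in a chain of four constants -/
def M4 (S : B → B → B → Prop) (a b c d w : B) : Prop := ∃ w₁, M3 S a b c w₁ ∧ S w₁ w d

/-- one of two elements is in the chain of four constants -/
def T (S : B → B → B → Prop) (a b c d y y' : B) : Prop := ∃ w, S y w y' ∧ M4 S a b c d w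

/-- comparable elements -/
def Cc (S : B → B → B → Prop) (a b : B) : Prop := ∃ w, S a w b

theorem pp_three (h : PP 𝔸 {v : Fin 3 → B | S (v 0) (v 1) (v 2)})
    {V : Type} (a b c : V) : PP 𝔸 {z : V → B | S (z a) (z b) (z c)} :=
  h.subst ![a, b, c]

theorem pp_C (h : PP 𝔸 {v : Fin 3 → B | S (v 0) (v 1) (v 2)}) {V : Type} (a b : V) :
    PP 𝔸 {z : V → B | Cc S (z a) (z b)} :=
  ex1 (pp_three h (Sum.inl a) (Sum.inr ()) (Sum.inl b))

theorem pp_M3 (h : PP 𝔸 {v : Fin 3 → B | S (v 0) (v 1) (v 2)}) {V : Type} (a b c d : V) :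
    PP 𝔸 {z : V → B | M3 S (z a) (z b) (z c) (z d)} :=
  ex1 ((pp_three h (Sum.inl a) (Sum.inr ()) (Sum.inl b)).inter
    (pp_three h (Sum.inr ()) (Sum.inl d) (Sum.inl c)))

theorem pp_M4 (h : PP 𝔸 {v : Fin 3 → B | S (v 0) (v 1) (v 2)}) {V : Type} (a b c d e : V) :
    PP 𝔸 {z : V → B | M4 S (z a) (z b) (z c) (z d) (z e)} :=
  ex1 ((pp_M3 h (Sum.inl a) (Sum.inl b) (Sum.inl c) (Sum.inr ())).inter
    (pp_three h (Sum.inr ()) (Sum.inl e) (Sum.inl d)))

theorem pp_T (h : PP 𝔸 {v : Fin 3 → B | S (v 0) (v 1) (v 2)}) {V : Type} (a b c d y y' : V) :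
    PP 𝔸 {z : V → B | T S (z a) (z b) (z c) (z d) (z y) (z y')} :=
  ex1 ((pp_three h (Sum.inl y) (Sum.inr ()) (Sum.inl y')).inter
    (pp_M4 h (Sum.inl a) (Sum.inl b) (Sum.inl c) (Sum.inl d) (Sum.inr ())))

/-- the places of the first constants -/
def P : Fin 3 → Fin 8 := ![0, 1, 2]

/-- the places of the second constants -/
def Q : Fin 3 → Fin 8 := ![3, 4, 5]

/-- the smaller one of the other indices -/
def o1 : Fin 3 → Fin 3 := ![1, 0, 0]

/-- the larger one of the other indices -/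
def o2 : Fin 3 → Fin 3 := ![2, 2, 1]

theorem o1_ne : ∀ i, o1 i ≠ i := by decide

theorem o2_ne : ∀ i, o2 i ≠ i := by decide

open Sum

/-- the edges -/
def EE (S : B → B → B → Prop) : Set (Fin 8 ⊕ Fin 8 → B) :=
  {z | ∀ i ∈ (Set.univ : Set (Fin 3)), z ∈ {z : Fin 8 ⊕ Fin 8 → B | z (inl (P i)) = z (inr (P i))}} ∩
  ({z | ∀ i ∈ (Set.univ : Set (Fin 3)), z ∈ {z : Fin 8 ⊕ Fin 8 → B | z (inl (Q i)) = z (inr (Q i))}} ∩
  ({z | Cc S (z (inl (P 0))) (z (inl (P 1)))} ∩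
  ({z | Cc S (z (inl (P 1))) (z (inl (P 2)))} ∩
  ({z | Cc S (z (inl (P 2))) (z (inl (Q 0)))} ∩
  ({z | Cc S (z (inl (Q 0))) (z (inl (Q 1)))} ∩
  ({z | Cc S (z (inl (Q 1))) (z (inl (Q 2)))} ∩
  ({z | M3 S (z (inl (P 0))) (z (inl (P 1))) (z (inl (P 2))) (z (inl 6))} ∩
  ({z | M3 S (z (inl (Q 0))) (z (inl (Q 1))) (z (inl (Q 2))) (z (inl 7))} ∩
  ({z | M3 S (z (inl (P 0))) (z (inl (P 1))) (z (inl (P 2))) (z (inr 6))} ∩
  ({z | M3 S (z (inl (Q 0))) (z (inl (Q 1))) (z (inl (Q 2))) (z (inr 7))} ∩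
  ({z | ∀ a ∈ {a : Fin 3 × Fin 3 | a.1 ≠ a.2}, z ∈ {z : Fin 8 ⊕ Fin 8 → B |
    T S (z (inl (P (o1 a.1)))) (z (inl (P (o2 a.1)))) (z (inl (Q (o1 a.2)))) (z (inl (Q (o2 a.2))))
      (z (inl 6)) (z (inl 7))}} ∩
  ({z | ∀ a ∈ {a : Fin 3 × Fin 3 | a.1 ≠ a.2}, z ∈ {z : Fin 8 ⊕ Fin 8 → B |
    T S (z (inl (P (o1 a.1)))) (z (inl (P (o2 a.1)))) (z (inl (Q (o1 a.2)))) (z (inl (Q (o2 a.2))))
      (z (inr 6)) (z (inr 7))}} ∩
  {z | ∀ i ∈ (Set.univ : Set (Fin 3)), z ∈ {z : Fin 8 ⊕ Fin 8 → B |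
    T S (z (inl (P (o1 i)))) (z (inl (P (o2 i)))) (z (inl (Q (o1 i)))) (z (inl (Q (o2 i))))
      (z (inl 6)) (z (inr 7))}}))))))))))))

theorem pp_EE (h : PP 𝔸 {v : Fin 3 → B | S (v 0) (v 1) (v 2)}) : PP 𝔸 (EE S) := by
  refine PP.inter (PP.iInter _ Set.finite_univ _ fun i _ => PP.eq _ _) ?_
  refine PP.inter (PP.iInter _ Set.finite_univ _ fun i _ => PP.eq _ _) ?_
  refine PP.inter (pp_C h _ _) ?_
  refine PP.inter (pp_C h _ _) ?_
  refine PP.inter (pp_C h _ _) ?_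
  refine PP.inter (pp_C h _ _) ?_
  refine PP.inter (pp_C h _ _) ?_
  refine PP.inter (pp_M3 h _ _ _ _) ?_
  refine PP.inter (pp_M3 h _ _ _ _) ?_
  refine PP.inter (pp_M3 h _ _ _ _) ?_
  refine PP.inter (pp_M3 h _ _ _ _) ?_
  refine PP.inter (PP.iInter _ (Set.toFinite _) _ fun i _ => pp_T h _ _ _ _ _ _) ?_
  refine PP.inter (PP.iInter _ (Set.toFinite _) _ fun i _ => pp_T h _ _ _ _ _ _) ?_
  exact PP.iInter _ Set.finite_univ _ fun i _ => pp_T h _ _ _ _ _ _

theorem M3_imp (hS : ∀ x y z, S x y z → y = x ∨ y = z) {a b c w : B} (h : M3 S a b c w) :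
    w = a ∨ w = b ∨ w = c := by
  obtain ⟨w₁, h1, h2⟩ := h
  rcases hS _ _ _ h2 with rfl | rfl
  · rcases hS _ _ _ h1 with h3 | h3
    · exact Or.inl h3
    · exact Or.inr (Or.inl h3)
  · exact Or.inr (Or.inr rfl)

theorem M4_imp (hS : ∀ x y z, S x y z → y = x ∨ y = z) {a b c d w : B} (h : M4 S a b c d w) :
    w = a ∨ w = b ∨ w = c ∨ w = d := by
  obtain ⟨w₁, h1, h2⟩ := h
  rcases hS _ _ _ h2 with rfl | rfl
  · rcases M3_imp hS h1 with h3 | h3 | h3
    · exact Or.inl h3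
    · exact Or.inr (Or.inl h3)
    · exact Or.inr (Or.inr (Or.inl h3))
  · exact Or.inr (Or.inr (Or.inr rfl))

theorem T_no (hS : ∀ x y z, S x y z → y = x ∨ y = z) {p q : Fin 3 → B}
    (hp : Function.Injective p) (hq : Function.Injective q) (hpq : ∀ a b, p a ≠ q b)
    (i j : Fin 3) : ¬ T S (p (o1 i)) (p (o2 i)) (q (o1 j)) (q (o2 j)) (p i) (q j) := by
  rintro ⟨w, h1, h2⟩
  rcases hS _ _ _ h1 with rfl | rfl
  · rcases M4_imp hS h2 with h3 | h3 | h3 | h3
    · exact o1_ne i (hp h3).symm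
    · exact o2_ne i (hp h3).symm
    · exact hpq _ _ h3
    · exact hpq _ _ h3
  · rcases M4_imp hS h2 with h3 | h3 | h3 | h3
    · exact hpq _ _ h3.symm
    · exact hpq _ _ h3.symm
    · exact o1_ne j (hq h3).symm
    · exact o2_ne j (hq h3).symm

theorem M3_J {J : ℕ → B} (hJ : ∀ a b, a < b → S (J a) (J a) (J b) ∧ S (J a) (J b) (J b))
    {a b c w : ℕ} (hab : a < b) (hbc : b < c) (hw : w = a ∨ w = b ∨ w = c) :
    M3 S (J a) (J b) (J c) (J w) := by
  rcases hw with rfl | rfl | rfl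
  · exact ⟨J w, (hJ _ _ hab).1, (hJ _ _ (hab.trans hbc)).1⟩
  · exact ⟨J w, (hJ _ _ hab).2, (hJ _ _ hbc).1⟩
  · exact ⟨J a, (hJ _ _ hab).1, (hJ _ _ (hab.trans hbc)).2⟩

theorem M4_J {J : ℕ → B} (hJ : ∀ a b, a < b → S (J a) (J a) (J b) ∧ S (J a) (J b) (J b))
    {a b c d w : ℕ} (hab : a < b) (hbc : b < c) (hcd : c < d)
    (hw : w = a ∨ w = b ∨ w = c ∨ w = d) :
    M4 S (J a) (J b) (J c) (J d) (J w) := by
  rcases hw with h | h | h | h
  · exact ⟨J w, M3_J hJ hab hbc (Or.inl h), (hJ _ _ (by omega)).1⟩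
  · exact ⟨J w, M3_J hJ hab hbc (Or.inr (Or.inl h)), (hJ _ _ (by omega)).1⟩
  · exact ⟨J w, M3_J hJ hab hbc (Or.inr (Or.inr h)), (hJ _ _ (by omega)).1⟩
  · subst h
    exact ⟨J a, M3_J hJ hab hbc (Or.inl rfl), (hJ _ _ (by omega)).2⟩

theorem T_J {J : ℕ → B} (hJ : ∀ a b, a < b → S (J a) (J a) (J b) ∧ S (J a) (J b) (J b))
    {a b c d y y' : ℕ} (hab : a < b) (hbc : b < c) (hcd : c < d) (hy : y < y')
    (hw : (y = a ∨ y = b ∨ y = c ∨ y = d) ∨ (y' = a ∨ y' = b ∨ y' = c ∨ y' = d)) :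
    T S (J a) (J b) (J c) (J d) (J y) (J y') := by
  rcases hw with h | h
  · exact ⟨J y, (hJ _ _ hy).1, M4_J hJ hab hbc hcd h⟩
  · exact ⟨J y', (hJ _ _ hy).2, M4_J hJ hab hbc hcd h⟩

/-- the positions of the coordinates of the vertices of the triangle -/
def idx (i : Fin 3) : Fin 8 → ℕ := ![0, 1, 2, 3, 4, 5, i, 3 + i]

theorem idx_P : ∀ i j : Fin 3, idx i (P j) = j := by decide

theorem idx_Q : ∀ i j : Fin 3, idx i (Q j) = 3 + j := by decide

theorem T_idx : ∀ a b c d : Fin 3, (a ≠ c ∨ b ≠ d) →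
    (((c : ℕ) = (o1 a : ℕ) ∨ (c : ℕ) = (o2 a : ℕ) ∨ (c : ℕ) = 3 + (o1 b : ℕ) ∨ (c : ℕ) = 3 + (o2 b : ℕ)) ∨
      (3 + (d : ℕ) = (o1 a : ℕ) ∨ 3 + (d : ℕ) = (o2 a : ℕ) ∨ 3 + (d : ℕ) = 3 + (o1 b : ℕ) ∨
        3 + (d : ℕ) = 3 + (o2 b : ℕ))) := by decide

theorem o12 : ∀ a : Fin 3, (o1 a : ℕ) < (o2 a : ℕ) := by decide

theorem o23 : ∀ a b : Fin 3, (o2 a : ℕ) < 3 + (o1 b : ℕ) := by decide

end

end OGADAux

open OGADAux

theorem OGAD_ok : S_OGAD := by
  classical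
  intro B ι ar 𝔸 E hirr htr J _ S hS hSE hSJ
  have hS' : ∀ x y z, S x y z → y = x ∨ y = z := fun x y z h => (hSE x y z h).2
  refine ⟨8, EE S, by norm_num, (pp_EE hS).toPPDef, ⟨fun i k => J (idx i k), ?_⟩,
    ⟨fun x => if x 6 = x 0 then 0 else if x 6 = x 1 then 1 else 2, ?_⟩⟩
  · intro i j hij
    have hT : ∀ a b c d : Fin 3, (a ≠ c ∨ b ≠ d) →
        T S (J (idx i (P (o1 a)))) (J (idx i (P (o2 a)))) (J (idx i (Q (o1 b))))
          (J (idx i (Q (o2 b)))) (J c) (J (3 + d)) := by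
      intro a b c d h
      rw [idx_P, idx_P, idx_Q, idx_Q]
      have h2 := o12 b
      exact T_J hSJ (o12 a) (o23 a b) (by omega) (by omega) (T_idx a b c d h)
    have hv : ∀ c : Fin 3, (c : ℕ) = 0 ∨ (c : ℕ) = 1 ∨ (c : ℕ) = 2 := by decide
    have hv' : ∀ c : Fin 3, 3 + (c : ℕ) = 3 ∨ 3 + (c : ℕ) = 4 ∨ 3 + (c : ℕ) = 5 := by decide
    refine ⟨fun k _ => ?_, fun k _ => ?_, ⟨J 0, (hSJ 0 1 (by norm_num)).1⟩,
      ⟨J 1, (hSJ 1 2 (by norm_num)).1⟩, ⟨J 2, (hSJ 2 3 (by norm_num)).1⟩,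
      ⟨J 3, (hSJ 3 4 (by norm_num)).1⟩, ⟨J 4, (hSJ 4 5 (by norm_num)).1⟩,
      M3_J (a := 0) (b := 1) (c := 2) hSJ (by norm_num) (by norm_num) (hv i),
      M3_J (a := 3) (b := 4) (c := 5) hSJ (by norm_num) (by norm_num) (hv' i),
      M3_J (a := 0) (b := 1) (c := 2) hSJ (by norm_num) (by norm_num) (hv j),
      M3_J (a := 3) (b := 4) (c := 5) hSJ (by norm_num) (by norm_num) (hv' j),
      fun a ha => ?_, fun a ha => ?_, fun a _ => ?_⟩
    · show J (idx i (P k)) = J (idx j (P k))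
      rw [idx_P, idx_P]
    · show J (idx i (Q k)) = J (idx j (Q k))
      rw [idx_Q, idx_Q]
    · refine hT a.1 a.2 i i ?_
      by_contra hcon
      push Not at hcon
      exact ha (hcon.1.trans hcon.2.symm)
    · refine hT a.1 a.2 j j ?_
      by_contra hcon
      push Not at hcon
      exact ha (hcon.1.trans hcon.2.symm)
    · refine hT a a i j ?_
      by_contra hcon
      push Not at hcon
      exact hij (hcon.1.symm.trans hcon.2)
  · intro x y hxy
    obtain ⟨h1, h2, c1, c2, c3, c4, c5, m1, m2, m3, m4, t1, t2, t3⟩ := hxy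
    have hE : ∀ a b : B, Cc S a b → E a b := fun a b ⟨w, hw⟩ => (hSE _ _ _ hw).1
    obtain ⟨p, hp⟩ : ∃ p : Fin 3 → B, p = fun k => x (P k) := ⟨_, rfl⟩
    obtain ⟨q, hq⟩ : ∃ q : Fin 3 → B, q = fun k => x (Q k) := ⟨_, rfl⟩
    have e1 : E (p 0) (p 1) := by rw [hp]; exact hE _ _ c1
    have e2 : E (p 1) (p 2) := by rw [hp]; exact hE _ _ c2
    have e3 : E (p 2) (q 0) := by rw [hp, hq]; exact hE _ _ c3
    have e4 : E (q 0) (q 1) := by rw [hq]; exact hE _ _ c4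
    have e5 : E (q 1) (q 2) := by rw [hq]; exact hE _ _ c5
    have hne : ∀ a b, E a b → a ≠ b := fun a b h hab => hirr a (by rw [hab] at h ⊢; exact h)
    have e02 := htr _ _ _ e1 e2
    have f02 := htr _ _ _ e4 e5
    have hpinj : Function.Injective p := by
      intro a b hab
      fin_cases a <;> fin_cases b
      · rfl
      · exact absurd hab (hne _ _ e1)
      · exact absurd hab (hne _ _ e02)
      · exact absurd hab.symm (hne _ _ e1)
      · rfl
      · exact absurd hab (hne _ _ e2)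
      · exact absurd hab.symm (hne _ _ e02)
      · exact absurd hab.symm (hne _ _ e2)
      · rfl
    have hqinj : Function.Injective q := by
      intro a b hab
      fin_cases a <;> fin_cases b
      · rfl
      · exact absurd hab (hne _ _ e4)
      · exact absurd hab (hne _ _ f02)
      · exact absurd hab.symm (hne _ _ e4)
      · rfl
      · exact absurd hab (hne _ _ e5)
      · exact absurd hab.symm (hne _ _ f02)
      · exact absurd hab.symm (hne _ _ e5)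
      · rfl
    have hle : ∀ a, p a = p 2 ∨ E (p a) (p 2) := by
      intro a
      fin_cases a
      · exact Or.inr e02
      · exact Or.inr e2
      · exact Or.inl rfl
    have hle' : ∀ b, q 0 = q b ∨ E (q 0) (q b) := by
      intro b
      fin_cases b
      · exact Or.inl rfl
      · exact Or.inr e4
      · exact Or.inr f02
    have hpq : ∀ a b, p a ≠ q b := by
      intro a b
      apply hne
      have h3 : E (p a) (q 0) := by
        rcases hle a with h | h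
        · rw [h]
          exact e3
        · exact htr _ _ _ h e3
      rcases hle' b with h | h
      · rw [← h]
        exact h3
      · exact htr _ _ _ h3 h
    have hyp : ∀ k, y (P k) = p k := fun k => by rw [hp]; exact (h1 k (Set.mem_univ _)).symm
    have idxp : ∀ w : B, M3 S (x (P 0)) (x (P 1)) (x (P 2)) w → ∃ i, w = p i := by
      intro w hw
      rcases M3_imp hS' hw with h | h | h
      · exact ⟨0, by rw [hp]; exact h⟩
      · exact ⟨1, by rw [hp]; exact h⟩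
      · exact ⟨2, by rw [hp]; exact h⟩
    have idxq : ∀ w : B, M3 S (x (Q 0)) (x (Q 1)) (x (Q 2)) w → ∃ i, w = q i := by
      intro w hw
      rcases M3_imp hS' hw with h | h | h
      · exact ⟨0, by rw [hq]; exact h⟩
      · exact ⟨1, by rw [hq]; exact h⟩
      · exact ⟨2, by rw [hq]; exact h⟩
    obtain ⟨i, hi⟩ := idxp _ m1
    obtain ⟨i', hi'⟩ := idxq _ m2
    obtain ⟨j, hj⟩ := idxp _ m3
    obtain ⟨j', hj'⟩ := idxq _ m4
    have hii : i = i' := by
      by_contra hcon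
      have h3 := t1 (i, i') hcon
      have h4 : T S (p (o1 i)) (p (o2 i)) (q (o1 i')) (q (o2 i')) (p i) (q i') := by
        rw [← hi, ← hi', hp, hq]
        exact h3
      exact T_no hS' hpinj hqinj hpq i i' h4
    have hjj : j = j' := by
      by_contra hcon
      have h3 := t2 (j, j') hcon
      have h4 : T S (p (o1 j)) (p (o2 j)) (q (o1 j')) (q (o2 j')) (p j) (q j') := by
        rw [← hj, ← hj', hp, hq]
        exact h3
      exact T_no hS' hpinj hqinj hpq j j' h4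
    have hij : i ≠ j := by
      intro hcon
      have h3 := t3 i (Set.mem_univ _)
      have h4 : T S (p (o1 i)) (p (o2 i)) (q (o1 i)) (q (o2 i)) (p i) (q i) := by
        have h5 : q i = Sum.elim x y (Sum.inr 7) := by rw [hj', hcon, hjj]
        rw [h5, ← hi, hp, hq]
        exact h3
      exact T_no hS' hpinj hqinj hpq i i h4
    have hg : ∀ (u : Fin 8 → B) (k : Fin 3), (∀ l, u (P l) = p l) → u 6 = p k →
        (if u 6 = u 0 then (0 : Fin 3) else if u 6 = u 1 then 1 else 2) = k := by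
      intro u k hu h6
      have u0 : u 0 = p 0 := hu 0
      have u1 : u 1 = p 1 := hu 1
      have hk : ∀ k : Fin 3, k = 0 ∨ k = 1 ∨ k = 2 := by decide
      rw [u0, u1, h6]
      rcases hk k with rfl | rfl | rfl
      · exact if_pos rfl
      · rw [if_neg (fun h => absurd (hpinj h) (by decide)), if_pos rfl]
      · rw [if_neg (fun h => absurd (hpinj h) (by decide)),
          if_neg (fun h => absurd (hpinj h) (by decide))]
    have g1 := hg x i (fun l => by rw [hp]) hi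
    have g2 := hg y j hyp hj
    show (if x 6 = x 0 then (0 : Fin 3) else if x 6 = x 1 then 1 else 2) ≠
      (if y 6 = y 0 then (0 : Fin 3) else if y 6 = y 1 then 1 else 2)
    rw [g1, g2]
    exact hij

end Pool.Agent.U540.PU
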