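import Pool.Agent.U540.PU.Stm

/-!
# Package OKA of project PU: admissible maps preserve pp-definable relations
-/

set_option autoImplicit false

namespace Pool.Agent.U540.PU

open Pool.Agent.W994.AR Pool.Agent.U540.BP

namespace OKAAux

/-- a rank function for a preorder on a finite type -/
theorem exists_rank {Z : Type} [Finite Z] (L : Z → Z → Prop) (hr : ∀ z, L z z)
    (ht : ∀ a b c, L a b → L b c → L a c) :
    ∃ ρ : Z → ℕ, (∀ a b, L a b → ρ a ≤ ρ b) ∧ ∀ a b, ρ a = ρ b → L a b ∧ L b a := by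
  classical
  letI : Preorder Z := { le := L, le_refl := hr, le_trans := ht }
  haveI : Finite (Antisymmetrization Z (· ≤ ·)) := Quotient.finite _
  haveI : Finite (LinearExtension (Antisymmetrization Z (· ≤ ·))) :=
    ‹Finite (Antisymmetrization Z (· ≤ ·))›
  haveI : Fintype (LinearExtension (Antisymmetrization Z (· ≤ ·))) := Fintype.ofFinite _
  let i := Fintype.orderIsoFinOfCardEq (LinearExtension (Antisymmetrization Z (· ≤ ·))) rfl
  let f : Z → LinearExtension (Antisymmetrization Z (· ≤ ·)) :=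
    fun z => toLinearExtension (toAntisymmetrization (· ≤ ·) z)
  refine ⟨fun z => (i.symm (f z)).val, ?_, ?_⟩
  · intro a b h
    have h1 : toAntisymmetrization (· ≤ ·) a ≤ toAntisymmetrization (· ≤ ·) b := h
    have h2 : f a ≤ f b := toLinearExtension.monotone h1
    exact i.symm.monotone h2
  · intro a b h
    have h1 : i.symm (f a) = i.symm (f b) := Fin.ext h
    have h2 : f a = f b := i.symm.injective h1
    have h3 : toAntisymmetrization (· ≤ ·) a = toAntisymmetrization (· ≤ ·) b := h2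
    have h4 := Quotient.exact h3
    exact h4

variable {B : Type} {E : B → B → Prop} {k : ℕ} {R : Set (Fin k → B)}

theorem mem_inl (l : Fin 2) (w : Fin 2 → B) :
    w ∈ otmpl E R (Sum.inl l) ↔ if l = 0 then E (w 0) (w 1) else (w 0 = w 1 ∨ E (w 0) (w 1)) := by
  show w ∈ ordBase E l ↔ _
  unfold ordBase
  split_ifs <;> rfl

theorem mem_inr (t : Fin 1) (w : Fin k → B) : w ∈ otmpl E R (Sum.inr t) ↔ w ∈ R := Iff.rfl

/-- relations which are pp-definable are invariant -/
theorem inv {G : Subgroup (Equiv.Perm B)} (hR : Invar G R)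
    (hE : ∀ g ∈ G, ∀ a b, E a b → E (g a) (g b)) {V : Type} {S : Set (V → B)}
    (hS : PPDef (otmpl E R) S) : Invar G S := by
  obtain ⟨q, Ψ, h⟩ := hS
  intro g hg v hv
  obtain ⟨u, hu⟩ := (h v).1 hv
  rw [h]
  refine ⟨fun z => g (u z), ?_⟩
  have h1 : (Sum.elim (fun i => g (v i)) (fun z => g (u z))) = fun z => g (Sum.elim v u z) := by
    funext z
    cases z <;> rfl
  rw [h1]
  intro ψ hψ
  have h2 := hu ψ hψ
  cases ψ with
  | eq x y =>
    show g _ = g _
    exact congrArg g h2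
  | rel i x =>
    cases i with
    | inl l =>
      have h3 := (mem_inl (E := E) (R := R) l (fun j : Fin 2 => Sum.elim v u (x j))).1 h2
      refine (mem_inl (E := E) (R := R) l (fun j : Fin 2 => g (Sum.elim v u (x j)))).2 ?_
      split_ifs at h3 ⊢ with hl
      · exact hE g hg _ _ h3
      · rcases h3 with h3 | h3
        · exact Or.inl (congrArg g h3)
        · exact Or.inr (hE g hg _ _ h3)
    | inr t =>
      have h3 : (fun j => Sum.elim v u (x j)) ∈ R := h2
      exact hR g hg _ h3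

/-- the chain tuple of a suitable rank function satisfies the atoms -/
theorem holds (hF : FullOrd E R) {J : ℕ → B} (hJ : ∀ i j, i < j → E (J i) (J j))
    {Φ Z : Type} [hΦ : Nonempty Φ] (w : Φ → Z → B) (ρ : Z → ℕ)
    (h1 : ∀ a b, (∀ φ, w φ a = w φ b ∨ E (w φ a) (w φ b)) → ρ a ≤ ρ b)
    (h2 : ∀ a b, ρ a = ρ b → ∀ φ, w φ a = w φ b)
    (ψ : Atom (Fin 2 ⊕ Fin 1) (Sum.elim (fun _ => 2) fun _ => k) Z)
    (hψ : ∀ φ, ψ.Holds (otmpl E R) (w φ)) : ψ.Holds (otmpl E R) (fun z => J (ρ z)) := by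
  obtain ⟨irr, -, -, nc, cst⟩ := hF
  obtain ⟨φ0⟩ := hΦ
  cases ψ with
  | eq x y =>
    show J (ρ x) = J (ρ y)
    have h3 : ∀ φ, w φ x = w φ y := hψ
    rw [le_antisymm (h1 x y fun φ => Or.inl (h3 φ)) (h1 y x fun φ => Or.inl (h3 φ).symm)]
  | rel i x =>
    cases i with
    | inl l =>
      have h3 := fun φ => (mem_inl (E := E) (R := R) l (fun j : Fin 2 => w φ (x j))).1 (hψ φ)
      refine (mem_inl (E := E) (R := R) l (fun j : Fin 2 => J (ρ (x j)))).2 ?_
      split_ifs at h3 ⊢ with hl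
      · apply hJ
        refine lt_of_le_of_ne (h1 _ _ fun φ => Or.inr (h3 φ)) fun h4 => ?_
        have h5 := h2 _ _ h4 φ0
        have h6 := h3 φ0
        rw [h5] at h6
        exact irr _ h6
      · rcases (h1 _ _ h3).lt_or_eq with h4 | h4
        · exact Or.inr (hJ _ _ h4)
        · exact Or.inl (congrArg J h4)
    | inr t =>
      have h3 : ∀ φ, (fun j => w φ (x j)) ∈ R := hψ
      show (fun j => J (ρ (x j))) ∈ R
      by_cases hnc : NC (fun j => J (ρ (x j)))
      · apply nc _ hnc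
        intro i j
        rcases lt_trichotomy (ρ (x i)) (ρ (x j)) with h4 | h4 | h4
        · exact Or.inr (Or.inl (hJ _ _ h4))
        · exact Or.inl (congrArg J h4)
        · exact Or.inr (Or.inr (hJ _ _ h4))
      · have hc : ∀ i j, J (ρ (x i)) = J (ρ (x j)) := by
          intro i j
          by_contra h4
          exact hnc ⟨i, j, h4⟩
        have hJi : ∀ a b, J a = J b → a = b := by
          intro a b hab
          rcases lt_trichotomy a b with h4 | h4 | h4
          · exact absurd (hab ▸ hJ _ _ h4) (irr _)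
          · exact h4
          · exact absurd (hab ▸ hJ _ _ h4) (irr _)
        rcases Nat.eq_zero_or_pos k with h0 | h0
        · subst h0
          have h4 : (fun j => J (ρ (x j))) = fun j => w φ0 (x j) := by
            funext j
            exact j.elim0
          rw [h4]
          exact h3 φ0
        · have h4 : (fun j => w φ0 (x j)) = fun _ => w φ0 (x ⟨0, h0⟩) := by
            funext j
            exact h2 _ _ (hJi _ _ (hc j ⟨0, h0⟩)) φ0
          have h5 : (fun j => J (ρ (x j))) = fun _ => J (ρ (x ⟨0, h0⟩)) := by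
            funext j
            exact hc j ⟨0, h0⟩
          rw [h5]
          have h6 := h3 φ0
          rw [h4] at h6
          exact cst _ _ h6

end OKAAux

open OKAAux

theorem OKA_ok : S_OKA := by
  classical
  intro B G E k R hF hR hE hom Φ V _ hΦ _ S hS v hv e cmp heq hmono
  have hinv := inv hR hE hS
  have hF' := hF
  obtain ⟨irr, tr, ⟨J, hJ⟩, -, -⟩ := hF'
  obtain ⟨q, Ψ, hΨ⟩ := hS
  have h3 := fun φ => (hΨ (v φ)).1 (hv φ)
  choose u hu using h3
  let w : Φ → V ⊕ Fin q → B := fun φ => Sum.elim (v φ) (u φ)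
  let P : V ⊕ Fin q → V ⊕ Fin q → Prop := fun a b => ∀ φ, w φ a = w φ b ∨ E (w φ a) (w φ b)
  let Q : V → V → Prop := fun x y => e x = e y ∨ E (e x) (e y)
  have Pr : ∀ a, P a a := fun a φ => Or.inl rfl
  have Pt : ∀ a b c, P a b → P b c → P a c := by
    intro a b c h1 h2 φ
    rcases h1 φ with h4 | h4 <;> rcases h2 φ with h5 | h5
    · exact Or.inl (h4.trans h5)
    · exact Or.inr (h4 ▸ h5)
    · exact Or.inr (h5 ▸ h4)
    · exact Or.inr (tr _ _ _ h4 h5)
  have Pa : ∀ a b, P a b → P b a → ∀ φ, w φ a = w φ b := by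
    intro a b h1 h2 φ
    rcases h1 φ with h4 | h4
    · exact h4
    · rcases h2 φ with h5 | h5
      · exact h5.symm
      · exact absurd (tr _ _ _ h4 h5) (irr _)
  have Pe : ∀ a b, (∀ φ, w φ a = w φ b) → P a b := fun a b h φ => Or.inl (h φ)
  have Qt : ∀ a b c, Q a b → Q b c → Q a c := by
    intro a b c h1 h2
    rcases h1 with h4 | h4 <;> rcases h2 with h5 | h5
    · exact Or.inl (h4.trans h5)
    · exact Or.inr (h4 ▸ h5)
    · exact Or.inr (h5 ▸ h4)
    · exact Or.inr (tr _ _ _ h4 h5)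
  have Qa : ∀ a b, Q a b → Q b a → ∀ φ, w φ (Sum.inl a) = w φ (Sum.inl b) := by
    intro a b h1 h2
    have h6 : e a = e b := by
      rcases h1 with h4 | h4
      · exact h4
      · rcases h2 with h5 | h5
        · exact h5.symm
        · exact absurd (tr _ _ _ h4 h5) (irr _)
    exact (heq a b).1 h6
  have PQ : ∀ x y, P (Sum.inl x) (Sum.inl y) → Q x y := fun x y h => hmono x y h
  let L : V ⊕ Fin q → V ⊕ Fin q → Prop := fun a b =>
    P a b ∨ ∃ x y, P a (Sum.inl x) ∧ Q x y ∧ P (Sum.inl y) b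
  have Lr : ∀ a, L a a := fun a => Or.inl (Pr a)
  have Lt : ∀ a b c, L a b → L b c → L a c := by
    rintro a b c (h1 | ⟨x, y, h1, h2, h3⟩) (h4 | ⟨x', y', h4, h5, h6⟩)
    · exact Or.inl (Pt _ _ _ h1 h4)
    · exact Or.inr ⟨x', y', Pt _ _ _ h1 h4, h5, h6⟩
    · exact Or.inr ⟨x, y, h1, h2, Pt _ _ _ h3 h4⟩
    · exact Or.inr ⟨x, y', h1, Qt _ _ _ (Qt _ _ _ h2 (PQ _ _ (Pt _ _ _ h3 h4))) h5, h6⟩
  have La : ∀ a b, L a b → L b a → ∀ φ, w φ a = w φ b := by
    have key : ∀ a b x y, P a (Sum.inl x) → Q x y → P (Sum.inl y) b → P b a →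
        ∀ φ, w φ a = w φ b := by
      intro a b x y h1 h2 h3 h4
      have h5 : Q y x := PQ _ _ (Pt _ _ _ (Pt _ _ _ h3 h4) h1)
      have h6 := Qa x y h2 h5
      exact Pa _ _ (Pt _ _ _ h1 (Pt _ _ _ (Pe _ _ h6) h3)) h4
    rintro a b (h1 | ⟨x, y, h1, h2, h3⟩) (h4 | ⟨x', y', h4, h5, h6⟩)
    · exact Pa _ _ h1 h4
    · intro φ
      exact (key b a x' y' h4 h5 h6 h1 φ).symm
    · exact key a b x y h1 h2 h3 h4
    · -- all four elements of `V` have the same row
      have h7 : Q y x' := PQ _ _ (Pt _ _ _ h3 h4)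
      have h8 : Q y' x := PQ _ _ (Pt _ _ _ h6 h1)
      have h9 : ∀ φ, w φ (Sum.inl x) = w φ (Sum.inl y') :=
        Qa x y' (Qt _ _ _ (Qt _ _ _ h2 h7) h5) h8
      have h10 : ∀ φ, w φ (Sum.inl y) = w φ (Sum.inl x') :=
        Qa y x' h7 (Qt _ _ _ (Qt _ _ _ h5 h8) h2)
      have h11 : ∀ φ, w φ (Sum.inl x) = w φ (Sum.inl y) :=
        Qa x y h2 (Qt _ _ _ h7 (Qt _ _ _ h5 h8))
      have h12 : ∀ φ, w φ a = w φ (Sum.inl x) :=
        Pa _ _ h1 (Pt _ _ _ (Pe _ _ h9) h6)
      have h13 : ∀ φ, w φ (Sum.inl y) = w φ b :=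
        Pa _ _ h3 (Pt _ _ _ h4 (Pe _ _ fun φ => (h10 φ).symm))
      intro φ
      rw [h12, h11, h13]
  obtain ⟨ρ, hρ1, hρ2⟩ := exists_rank L Lr Lt
  have hρP : ∀ a b, (∀ φ, w φ a = w φ b ∨ E (w φ a) (w φ b)) → ρ a ≤ ρ b :=
    fun a b h => hρ1 a b (Or.inl h)
  have hρE : ∀ a b, ρ a = ρ b → ∀ φ, w φ a = w φ b := fun a b h =>
    La a b (hρ2 a b h).1 (hρ2 a b h).2
  have hT : (fun x : V => J (ρ (Sum.inl x))) ∈ S := by
    rw [hΨ]
    refine ⟨fun z => J (ρ (Sum.inr z)), ?_⟩
    have h4 : (Sum.elim (fun x : V => J (ρ (Sum.inl x))) (fun z => J (ρ (Sum.inr z)))) =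
        fun z => J (ρ z) := by
      funext z
      cases z <;> rfl
    rw [h4]
    intro ψ hψ
    exact holds hF hJ w ρ hρP hρE ψ fun φ => hu φ ψ hψ
  -- the two chains
  have := Fintype.ofFinite V
  let A : Finset ℕ := Finset.univ.image fun x : V => ρ (Sum.inl x)
  let o := A.orderEmbOfFin rfl
  have ho : ∀ i, ∃ x : V, ρ (Sum.inl x) = o i := by
    intro i
    have h4 : o i ∈ A := Finset.orderEmbOfFin_mem A rfl i
    obtain ⟨x, -, hx⟩ := Finset.mem_image.1 h4
    exact ⟨x, hx⟩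
  choose c hc using ho
  have hlt : ∀ x y : V, ρ (Sum.inl x) < ρ (Sum.inl y) → E (e x) (e y) := by
    intro x y h
    rcases cmp x y with h4 | h4 | h4
    · exfalso
      have h5 := (heq x y).1 h4
      have h6 := hρP (Sum.inl y) (Sum.inl x) fun φ => Or.inl (h5 φ).symm
      omega
    · exact h4
    · exfalso
      have h6 := hρ1 (Sum.inl y) (Sum.inl x) (Or.inr ⟨y, x, Pr _, Or.inr h4, Pr _⟩)
      omega
  obtain ⟨g, hg, hgc⟩ := hom A.card (fun i => J (ρ (Sum.inl (c i)))) (fun i => e (c i))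
    (fun i j hij => hJ _ _ (by rw [hc, hc]; exact o.strictMono hij))
    (fun i j hij => hlt _ _ (by rw [hc, hc]; exact o.strictMono hij))
  have h7 := hinv g hg _ hT
  have h8 : (fun x : V => g (J (ρ (Sum.inl x)))) = e := by
    funext x
    have h9 : ρ (Sum.inl x) ∈ A := Finset.mem_image.2 ⟨x, Finset.mem_univ _, rfl⟩
    have h10 : ρ (Sum.inl x) ∈ Set.range o := by
      rw [Finset.range_orderEmbOfFin]
      exact h9
    obtain ⟨i, hi⟩ := h10
    have h11 : ρ (Sum.inl (c i)) = ρ (Sum.inl x) := by rw [hc, hi]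
    have h12 : e (c i) = e x := (heq _ _).2 (hρE _ _ h11)
    have h13 := hgc i
    simp only at h13
    rw [← h11, h13, h12]
  rw [← h8]
  exact h7

end Pool.Agent.U540.PU
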