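import Pool.Agent.U540.PU.Stm

set_option autoImplicit false

namespace Pool.Agent.U540.PU

open Pool.Agent.W994.AR Pool.Agent.U540.BP

namespace OKBAux

variable {B : Type} {n : ℕ} (E : B → B → Prop) (a : Fin 3 → Fin n → B)

/-- the reflexive closure -/
def le (x y : B) : Prop := x = y ∨ E x y

/-- the relation on the pairs -/
def P (x y : Fin 4 × Fin n) : Prop :=
  (x.1 = y.1 ∧ ∀ i, le E (a i x.2) (a i y.2)) ∨
    (x.1 ≠ y.1 ∧ ∀ i j, i ≠ j → le E (a i x.2) (a j y.2))

/-- equality of rows -/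
def Req (x y : Fin 4 × Fin n) : Prop :=
  (x.1 = y.1 ∧ ∀ i, a i x.2 = a i y.2) ∨ ∀ i j, a i x.2 = a j y.2

/-- what one knows along a path -/
def M (x y : Fin 4 × Fin n) : Prop :=
  (x.1 = y.1 ∧ ∀ i, le E (a i x.2) (a i y.2)) ∨ ∀ i j, i ≠ j → le E (a i x.2) (a j y.2)

theorem third : ∀ i j : Fin 3, ∃ l, l ≠ i ∧ l ≠ j := by decide

theorem other : ∀ i : Fin 3, ∃ j, i ≠ j := by decide

variable {E a}

theorem le_trans' (htr : ∀ a b c, E a b → E b c → E a c) {x y z : B} (h : le E x y)
    (h' : le E y z) : le E x z := by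
  rcases h with rfl | h
  · exact h'
  · rcases h' with rfl | h'
    · exact Or.inr h
    · exact Or.inr (htr _ _ _ h h')

theorem le_anti (hir : ∀ a, ¬ E a a) (htr : ∀ a b c, E a b → E b c → E a c) {x y : B}
    (h : le E x y) (h' : le E y x) : x = y := by
  rcases h with h | h
  · exact h
  · rcases h' with h' | h'
    · exact h'.symm
    · exact absurd (htr _ _ _ h h') (hir x)

theorem P_refl (x : Fin 4 × Fin n) : P E a x x := Or.inl ⟨rfl, fun _ => Or.inl rfl⟩

theorem M_step (htr : ∀ a b c, E a b → E b c → E a c) {x y z : Fin 4 × Fin n}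
    (h : M E a x y) (h' : P E a y z) : M E a x z := by
  rcases h with ⟨h1, h2⟩ | h2
  · rcases h' with ⟨h3, h4⟩ | ⟨h3, h4⟩
    · exact Or.inl ⟨h1.trans h3, fun i => le_trans' htr (h2 i) (h4 i)⟩
    · exact Or.inr fun i j hij => le_trans' htr (h2 i) (h4 i j hij)
  · rcases h' with ⟨h3, h4⟩ | ⟨h3, h4⟩
    · exact Or.inr fun i j hij => le_trans' htr (h2 i j hij) (h4 j)
    · refine Or.inr fun i j _ => ?_
      obtain ⟨l, hl1, hl2⟩ := third i j
      exact le_trans' htr (h2 i l hl1.symm) (h4 l j hl2)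

theorem M_of (htr : ∀ a b c, E a b → E b c → E a c) {x y : Fin 4 × Fin n}
    (h : Relation.ReflTransGen (P E a) x y) : M E a x y := by
  induction h with
  | refl => exact Or.inl ⟨rfl, fun _ => Or.inl rfl⟩
  | tail _ h ih => exact M_step htr ih h

theorem Req_of (hir : ∀ a, ¬ E a a) (htr : ∀ a b c, E a b → E b c → E a c)
    {x y : Fin 4 × Fin n} (h : M E a x y) (h' : M E a y x) : Req a x y := by
  rcases h with ⟨h1, h2⟩ | h2
  · rcases h' with ⟨h3, h4⟩ | h4
    · exact Or.inl ⟨h1, fun i => le_anti hir htr (h2 i) (h4 i)⟩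
    · refine Or.inl ⟨h1, fun i => ?_⟩
      obtain ⟨j, hij⟩ := other i
      have e1 : le E (a i x.2) (a j x.2) := le_trans' htr (h2 i) (h4 i j hij)
      have e2 : le E (a j x.2) (a i x.2) := le_trans' htr (h2 j) (h4 j i hij.symm)
      have e3 : a i x.2 = a j x.2 := le_anti hir htr e1 e2
      refine le_anti hir htr (h2 i) ?_
      rw [e3]
      exact h4 i j hij
  · rcases h' with ⟨h3, h4⟩ | h4
    · refine Or.inl ⟨h3.symm, fun i => ?_⟩
      obtain ⟨j, hij⟩ := other i
      have e1 : le E (a i y.2) (a j y.2) := le_trans' htr (h4 i) (h2 i j hij)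
      have e2 : le E (a j y.2) (a i y.2) := le_trans' htr (h4 j) (h2 j i hij.symm)
      have e3 : a i y.2 = a j y.2 := le_anti hir htr e1 e2
      refine (le_anti hir htr (h4 i) ?_).symm
      rw [e3]
      exact h2 i j hij
    · have hx : ∀ i l, le E (a i x.2) (a l x.2) := by
        intro i l
        obtain ⟨j, hj1, hj2⟩ := third i l
        exact le_trans' htr (h2 i j hj1.symm) (h4 j l hj2)
      have hx' : ∀ i l, a i x.2 = a l x.2 := fun i l => le_anti hir htr (hx i l) (hx l i)
      refine Or.inr fun i j => ?_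
      obtain ⟨l, hl⟩ := other j
      refine le_anti hir htr ?_ ?_
      · rw [hx' i l]
        exact h2 l j hl.symm
      · rw [hx' i l]
        exact h4 j l hl

theorem P_of_Req {x y : Fin 4 × Fin n} (h : Req a x y) : P E a x y := by
  by_cases hs : x.1 = y.1
  · refine Or.inl ⟨hs, fun i => Or.inl ?_⟩
    rcases h with ⟨_, h⟩ | h
    · exact h i
    · exact h i i
  · rcases h with ⟨h1, _⟩ | h
    · exact absurd h1 hs
    · exact Or.inr ⟨hs, fun i j _ => Or.inl (h i j)⟩

theorem Req_symm {x y : Fin 4 × Fin n} (h : Req a x y) : Req a y x := by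
  rcases h with ⟨h1, h⟩ | h
  · exact Or.inl ⟨h1.symm, fun i => (h i).symm⟩
  · exact Or.inr fun i j => (h j i).symm

variable (E a) in
/-- a rank function -/
theorem exists_rank (hir : ∀ a, ¬ E a a) (htr : ∀ a b c, E a b → E b c → E a c) :
    ∃ rk : Fin 4 × Fin n → ℕ, (∀ x y, P E a x y → rk x ≤ rk y) ∧
      ∀ x y, rk x = rk y ↔ Req a x y := by
  classical
  let e : Fin 4 × Fin n ↪ ℕ := ⟨fun z => (Fintype.equivFin (Fin 4 × Fin n) z : ℕ), fun x y h =>
    (Fintype.equivFin (Fin 4 × Fin n)).injective (Fin.ext h)⟩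
  let c : Fin 4 × Fin n → Finset (Fin 4 × Fin n) := fun x =>
    Finset.univ.filter fun z => Relation.ReflTransGen (P E a) z x
  have hc : ∀ x z, z ∈ c x ↔ Relation.ReflTransGen (P E a) z x := by
    intro x z
    simp [c]
  refine ⟨fun x => ∑ i ∈ (c x).map e, 2 ^ i, fun x y hxy => ?_, fun x y => ⟨fun h => ?_, fun h => ?_⟩⟩
  · refine Finset.sum_le_sum_of_subset ?_
    rw [Finset.map_subset_map]
    intro z hz
    rw [hc] at hz ⊢
    exact hz.tail hxy
  · have h1 : (c x).map e = (c y).map e := Finset.geomSum_injective le_rfl h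
    have h2 : c x = c y := Finset.map_injective e h1
    have h3 : x ∈ c y := by
      rw [← h2, hc]
    have h4 : y ∈ c x := by
      rw [h2, hc]
    rw [hc] at h3 h4
    exact Req_of hir htr (M_of htr h3) (M_of htr h4)
  · have h2 : c x = c y := by
      ext z
      rw [hc, hc]
      exact ⟨fun h3 => h3.tail (P_of_Req h), fun h3 => h3.tail (P_of_Req (Req_symm h))⟩
    show ∑ i ∈ (c x).map e, 2 ^ i = ∑ i ∈ (c y).map e, 2 ^ i
    rw [h2]

end OKBAux

open OKBAux in
theorem OKB_ok : S_OKB := by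
  intro hO B G E k R hF hR hG hh
  rintro ⟨n, D, -, hD, ⟨a, ha⟩, ⟨g, hg⟩⟩
  obtain ⟨hir, htr, ⟨J, hJ⟩, hnc, hcc⟩ := id hF
  obtain ⟨rk, hr1, hr2⟩ := exists_rank E a hir htr
  have hJi : ∀ i j, J i = J j ↔ i = j := by
    intro i j
    constructor
    · intro h
      rcases lt_trichotomy i j with h1 | h1 | h1
      · have := hJ i j h1
        rw [h] at this
        exact absurd this (hir _)
      · exact h1
      · have := hJ j i h1
        rw [h] at this
        exact absurd this (hir _)
    · rintro rfl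
      rfl
  have hJm : ∀ i j, i ≤ j → J i = J j ∨ E (J i) (J j) := by
    intro i j h
    rcases h.eq_or_lt with rfl | h
    · exact Or.inl rfl
    · exact Or.inr (hJ i j h)
  let b : Fin 4 → Fin n → B := fun s p => J (rk (s, p))
  have hb : ∀ s t p q, b s p = b t q ↔ Req a (s, p) (t, q) := fun s t p q =>
    (hJi _ _).trans (hr2 _ _)
  have hm : ∀ s t p q, P E a (s, p) (t, q) → b s p = b t q ∨ E (b s p) (b t q) :=
    fun s t p q h => hJm _ _ (hr1 _ _ h)
  have hcross : ∀ p q, (∀ i j : Fin 3, i ≠ j → a i p = a j q) → ∀ i j, a i p = a j q := by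
    intro p q h2 i j
    by_cases hij : i = j
    · subst hij
      obtain ⟨l, hl⟩ := other i
      obtain ⟨l', hl1, hl2⟩ := third i l
      rw [h2 i l hl, ← h2 l' l hl2, h2 l' i hl1]
    · exact h2 i j hij
  have hne : ∀ i : Fin 3, ∃ j, i ≠ j := other
  have key : ∀ s t, s ≠ t → Sum.elim (b s) (b t) ∈ D := by
    intro s t hst
    have : Nonempty {ij : Fin 3 × Fin 3 // ij.1 ≠ ij.2} := ⟨⟨(0, 1), by decide⟩⟩
    refine hO B G E k R hF hR hG hh {ij : Fin 3 × Fin 3 // ij.1 ≠ ij.2} (Fin n ⊕ Fin n) D hD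
      (fun φ => Sum.elim (a φ.1.1) (a φ.1.2)) (fun φ => ha _ _ φ.2) (Sum.elim (b s) (b t)) ?_ ?_ ?_
    · have hcomp : ∀ s t p q, b s p = b t q ∨ E (b s p) (b t q) ∨ E (b t q) (b s p) := by
        intro s t p q
        rcases lt_trichotomy (rk (s, p)) (rk (t, q)) with h1 | h1 | h1
        · exact Or.inr (Or.inl (hJ _ _ h1))
        · exact Or.inl ((hJi _ _).2 h1)
        · exact Or.inr (Or.inr (hJ _ _ h1))
      rintro (p | p) (q | q)
      · exact hcomp s s p q
      · exact hcomp s t p q
      · exact hcomp t s p q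
      · exact hcomp t t p q
    · rintro (p | p) (q | q)
      · simp only [Sum.elim_inl]
        rw [hb]
        constructor
        · rintro (⟨_, h⟩ | h) φ
          · exact h _
          · exact h _ _
        · intro h
          refine Or.inl ⟨rfl, fun i => ?_⟩
          obtain ⟨j, hij⟩ := hne i
          exact h ⟨(i, j), hij⟩
      · simp only [Sum.elim_inl, Sum.elim_inr]
        rw [hb]
        constructor
        · rintro (⟨h, _⟩ | h) φ
          · exact absurd h hst
          · exact h _ _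
        · intro h
          exact Or.inr (hcross p q fun i j hij => h ⟨(i, j), hij⟩)
      · simp only [Sum.elim_inl, Sum.elim_inr]
        rw [hb]
        constructor
        · rintro (⟨h, _⟩ | h) φ
          · exact absurd h.symm hst
          · exact h _ _
        · intro h
          exact Or.inr (hcross p q fun i j hij => h ⟨(j, i), hij.symm⟩)
      · simp only [Sum.elim_inr]
        rw [hb]
        constructor
        · rintro (⟨_, h⟩ | h) φ
          · exact h _
          · exact h _ _
        · intro h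
          refine Or.inl ⟨rfl, fun i => ?_⟩
          obtain ⟨j, hij⟩ := hne i
          exact h ⟨(j, i), hij.symm⟩
    · rintro (p | p) (q | q) h
      · simp only [Sum.elim_inl] at h ⊢
        refine hm _ _ _ _ (Or.inl ⟨rfl, fun i => ?_⟩)
        obtain ⟨j, hij⟩ := hne i
        exact h ⟨(i, j), hij⟩
      · simp only [Sum.elim_inl, Sum.elim_inr] at h ⊢
        exact hm _ _ _ _ (Or.inr ⟨hst, fun i j hij => h ⟨(i, j), hij⟩⟩)
      · simp only [Sum.elim_inl, Sum.elim_inr] at h ⊢
        exact hm _ _ _ _ (Or.inr ⟨hst.symm, fun i j hij => h ⟨(j, i), hij.symm⟩⟩)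
      · simp only [Sum.elim_inr] at h ⊢
        refine hm _ _ _ _ (Or.inl ⟨rfl, fun i => ?_⟩)
        obtain ⟨j, hij⟩ := hne i
        exact h ⟨(j, i), hij.symm⟩
  have hinj4 : Function.Injective fun s : Fin 4 => g (b s) := by
    intro s t hst
    by_contra hne
    exact hg _ _ (key s t hne) hst
  have := Fintype.card_le_of_injective _ hinj4
  simp at this

end Pool.Agent.U540.PU
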