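import Pool.Agent.U540.PU.Stm

/-!
# Project PU, package OSD (helper460)
-/

set_option autoImplicit false

namespace Pool.Agent.U540.PU

open Pool.Agent.W994.AR

namespace OSDAux

section

variable {B ι : Type} {ar : ι → ℕ} {𝔸 : Str ι ar B} {m : ℕ}

/-- the pairs for which equality is allowed -/
def Wk (a b d i j : Fin m) : Prop := (i = a ∧ j = b) ∨ (i = b ∧ j = d)

/-- the condition for one pair -/
def Cd (E : B → B → Prop) (a b d : Fin m) (z : Fin m × Fin m) : Set (Fin m → B) :=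
  {e | z.1 < z.2 → (Wk a b d z.1 z.2 → e z.1 = e z.2 ∨ E (e z.1) (e z.2)) ∧
    (¬ Wk a b d z.1 z.2 → E (e z.1) (e z.2))}

def TT (E : B → B → Prop) {k : ℕ} (R : Set (Fin k → B)) (c : Fin k → Fin m) (a b d : Fin m) :
    Set (Fin m → B) :=
  {e | ∀ z ∈ (Set.univ : Set (Fin m × Fin m)), e ∈ Cd E a b d z} ∩ {e | e ∘ c ∈ R}

def S3 (E : B → B → Prop) {k : ℕ} (R : Set (Fin k → B)) (c : Fin k → Fin m) (a b d : Fin m)
    (x y z : B) : Prop :=
  ∃ e : Fin m → B, e ∈ TT E R c a b d ∧ e a = x ∧ e b = y ∧ e d = z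

theorem pp_two {D : B → B → Prop} (h : PP 𝔸 {v : Fin 2 → B | D (v 0) (v 1)}) {V : Type}
    (a b : V) : PP 𝔸 {z : V → B | D (z a) (z b)} :=
  h.subst ![a, b]

theorem pp_TT {E : B → B → Prop} (hE : PP 𝔸 {v : Fin 2 → B | E (v 0) (v 1)})
    (hE' : PP 𝔸 {v : Fin 2 → B | v 0 = v 1 ∨ E (v 0) (v 1)}) {k : ℕ} {R : Set (Fin k → B)}
    (hR : PP 𝔸 R) (c : Fin k → Fin m) (a b d : Fin m) : PP 𝔸 (TT E R c a b d) := by
  classical
  refine PP.inter (PP.iInter Set.univ Set.finite_univ (Cd E a b d) fun z _ => ?_) (hR.subst c)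
  by_cases h1 : z.1 < z.2
  · by_cases h2 : Wk a b d z.1 z.2
    · have : Cd E a b d z = {e : Fin m → B | e z.1 = e z.2 ∨ E (e z.1) (e z.2)} := by
        ext e
        simp [Cd, h1, h2]
      rw [this]
      exact pp_two (D := fun a b => a = b ∨ E a b) hE' z.1 z.2
    · have : Cd E a b d z = {e : Fin m → B | E (e z.1) (e z.2)} := by
        ext e
        simp [Cd, h1, h2]
      rw [this]
      exact pp_two hE z.1 z.2
  · have : Cd E a b d z = Set.univ := by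
      ext e
      simp [Cd, h1]
    rw [this]
    exact PP.univ

theorem pp_S3 {E : B → B → Prop} (hE : PP 𝔸 {v : Fin 2 → B | E (v 0) (v 1)})
    (hE' : PP 𝔸 {v : Fin 2 → B | v 0 = v 1 ∨ E (v 0) (v 1)}) {k : ℕ} {R : Set (Fin k → B)}
    (hR : PP 𝔸 R) (c : Fin k → Fin m) (a b d : Fin m) :
    PP 𝔸 {v : Fin 3 → B | S3 E R c a b d (v 0) (v 1) (v 2)} := by
  have h1 : PP 𝔸 ({z : Fin 3 ⊕ Fin m → B | z ∘ Sum.inr ∈ TT E R c a b d} ∩
      ({z : Fin 3 ⊕ Fin m → B | z (Sum.inr a) = z (Sum.inl 0)} ∩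
      ({z : Fin 3 ⊕ Fin m → B | z (Sum.inr b) = z (Sum.inl 1)} ∩
      {z : Fin 3 ⊕ Fin m → B | z (Sum.inr d) = z (Sum.inl 2)}))) :=
    ((pp_TT hE hE' hR c a b d).subst Sum.inr).inter
      ((PP.eq _ _).inter ((PP.eq _ _).inter (PP.eq _ _)))
  exact h1.ex

/-- consequences -/
theorem S3_imp {E : B → B → Prop} {k : ℕ} {R : Set (Fin k → B)} {c : Fin k → Fin m}
    {a b d : Fin m} (hb : (b : ℕ) = a + 1) (hd : (d : ℕ) = a + 2)
    (hmiss : ∀ e : Fin m → B, (∀ i j, i < j → E (e i) (e j)) → e ∘ c ∉ R) {x y z : B}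
    (h : S3 E R c a b d x y z) : E x z ∧ (y = x ∨ y = z) := by
  obtain ⟨e, ⟨he, heR⟩, rfl, rfl, rfl⟩ := h
  constructor
  · have had : a < d := Fin.lt_def.2 (by omega)
    refine (he (a, d) (Set.mem_univ _) had).2 ?_
    rintro (⟨_, h2⟩ | ⟨h1, _⟩)
    · have := congrArg Fin.val h2
      simp only at this
      omega
    · have := congrArg Fin.val h1
      simp only at this
      omega
  · by_contra hcon
    push Not at hcon
    refine hmiss e (fun i j hij => ?_) heR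
    have h1 := he (i, j) (Set.mem_univ _) hij
    by_cases hw : Wk a b d i j
    · rcases h1.1 hw with h2 | h2
      · exfalso
        change e i = e j at h2
        rcases hw with ⟨rfl, rfl⟩ | ⟨rfl, rfl⟩
        · exact hcon.1 h2.symm
        · exact hcon.2 h2
      · exact h2
    · exact h1.2 hw

/-- the positions in the chain -/
def f (a m i0 i1 i2 l : ℕ) : ℕ :=
  if l < a then l else if l = a then i0 else if l = a + 1 then i1 else if l = a + 2 then i2 else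
    i2 + l

theorem f_lt {a m i0 i1 i2 : ℕ} (ha : a + 2 < m) (h0 : m ≤ i0) (h01 : i0 ≤ i1) (h12 : i1 ≤ i2)
    (h02 : i0 < i2) {p q : ℕ} (hpq : p < q) (hq : q < m) :
    f a m i0 i1 i2 p < f a m i0 i1 i2 q ∨ (p = a ∧ q = a + 1 ∧ i0 = i1) ∨
      (p = a + 1 ∧ q = a + 2 ∧ i1 = i2) := by
  unfold f
  split_ifs <;> omega

/-- points of the relation -/
theorem S3_of {E : B → B → Prop} {J : ℕ → B} (hJ : ∀ i j, i < j → E (J i) (J j)) {k : ℕ}
    {R : Set (Fin k → B)} {c : Fin k → Fin m}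
    {a b d : Fin m} (hb : (b : ℕ) = a + 1) (hd : (d : ℕ) = a + 2)
    (hp1 : ∀ e : Fin m → B, e a = e b → (∀ i j, i < j → ¬ (i = a ∧ j = b) → E (e i) (e j)) →
      e ∘ c ∈ R)
    (hp2 : ∀ e : Fin m → B, e b = e d → (∀ i j, i < j → ¬ (i = b ∧ j = d) → E (e i) (e j)) →
      e ∘ c ∈ R) {i0 i1 i2 : ℕ} (h0 : m ≤ i0) (h01 : i0 ≤ i1) (h12 : i1 ≤ i2)
    (h02 : i0 < i2) (hor : i0 = i1 ∨ i1 = i2) :
    S3 E R c a b d (J i0) (J i1) (J i2) := by
  have ha : (a : ℕ) + 2 < m := by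
    have := d.2
    omega
  set g : Fin m → B := fun l => J (f a m i0 i1 i2 l) with hg
  have ga : g a = J i0 := by simp [hg, f]
  have fb : f a m i0 i1 i2 b = i1 := by
    unfold f
    split_ifs <;> omega
  have fd : f a m i0 i1 i2 d = i2 := by
    unfold f
    split_ifs <;> omega
  have gb : g b = J i1 := by
    rw [hg]
    simp only
    rw [fb]
  have gd : g d = J i2 := by
    rw [hg]
    simp only
    rw [fd]
  have key : ∀ i j : Fin m, i < j → E (g i) (g j) ∨ (i = a ∧ j = b ∧ i0 = i1) ∨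
      (i = b ∧ j = d ∧ i1 = i2) := by
    intro i j hij
    rcases f_lt ha h0 h01 h12 h02 (Fin.lt_def.1 hij) j.2 with h | ⟨h1, h2, h3⟩ | ⟨h1, h2, h3⟩
    · exact Or.inl (hJ _ _ h)
    · exact Or.inr (Or.inl ⟨Fin.ext h1, Fin.ext (by omega), h3⟩)
    · exact Or.inr (Or.inr ⟨Fin.ext (by omega), Fin.ext (by omega), h3⟩)
  refine ⟨g, ⟨fun z _ hz => ⟨fun _ => ?_, fun hw => ?_⟩, ?_⟩, ga, gb, gd⟩
  · rcases key z.1 z.2 hz with h | ⟨h1, h2, h3⟩ | ⟨h1, h2, h3⟩
    · exact Or.inr h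
    · left
      rw [h1, h2, ga, gb, h3]
    · left
      rw [h1, h2, gb, gd, h3]
  · rcases key z.1 z.2 hz with h | ⟨h1, h2, h3⟩ | ⟨h1, h2, h3⟩
    · exact h
    · exact absurd (Or.inl ⟨h1, h2⟩) hw
    · exact absurd (Or.inr ⟨h1, h2⟩) hw
  · rcases hor with h | h
    · refine hp1 g (by rw [ga, gb, h]) fun i j hij hne => ?_
      rcases key i j hij with h' | ⟨h1, h2, _⟩ | ⟨_, _, h3⟩
      · exact h'
      · exact absurd ⟨h1, h2⟩ hne
      · omega
    · refine hp2 g (by rw [gb, gd, h]) fun i j hij hne => ?_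
      rcases key i j hij with h' | ⟨_, _, h3⟩ | ⟨h1, h2, _⟩
      · exact h'
      · omega
      · exact absurd ⟨h1, h2⟩ hne

end

end OSDAux

open OSDAux in
/-- Package OSD. -/
theorem OSD_ok : S_OSD := by
  intro hO B ι ar 𝔸 E hir htr hE hE' J hJ k R hR m c a b d hb hd hmiss hp1 hp2
  refine hO B ι ar 𝔸 E hir htr (fun i => J (m + i)) (fun i j hij => hJ _ _ (by omega))
    (S3 E R c a b d) (pp_S3 hE hE' hR c a b d)
    (fun x y z h => S3_imp hb hd hmiss h) fun i j hij => ⟨?_, ?_⟩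
  · exact S3_of hJ hb hd hp1 hp2 (by omega) le_rfl (by omega) (by omega) (Or.inl rfl)
  · exact S3_of hJ hb hd hp1 hp2 (by omega) (by omega) le_rfl (by omega) (Or.inr rfl)

end Pool.Agent.U540.PU
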