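import Pool.Agent.U540.PU.Stm
set_option autoImplicit false
namespace Pool.Agent.U540.PU

/-! Package RANK (helper873 for helper540). -/

namespace RANKAux

open Classical in
/-- number of elements strictly below -/
noncomputable def f {k : ℕ} (r : Pt k) (i : Fin k) : ℕ :=
  (Finset.univ.filter fun j => ¬ r.1 i j).card

theorem f_le {k : ℕ} (r : Pt k) (i j : Fin k) : r.1 i j ↔ f r i ≤ f r j := by
  classical
  obtain ⟨h1, h2, h3⟩ := r.2
  constructor
  · intro h
    unfold f
    apply Finset.card_le_card
    intro l hl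
    rw [Finset.mem_filter] at hl ⊢
    exact ⟨hl.1, fun h' => hl.2 (h2 _ _ _ h h')⟩
  · intro h
    by_contra hn
    have hji : r.1 j i := (h3 i j).resolve_left hn
    have hlt : f r j < f r i := by
      unfold f
      apply Finset.card_lt_card
      rw [Finset.ssubset_iff_of_subset]
      · refine ⟨j, ?_, ?_⟩
        · rw [Finset.mem_filter]
          exact ⟨Finset.mem_univ _, hn⟩
        · rw [Finset.mem_filter]
          exact fun h' => h'.2 (h1 j)
      · intro l hl
        rw [Finset.mem_filter] at hl ⊢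
        exact ⟨hl.1, fun h' => hl.2 (h2 _ _ _ hji h')⟩
    omega

end RANKAux

/-- **Package RANK.** -/
theorem RANK_ok : S_RANK := by
  classical
  intro k r
  set S : Finset ℕ := Finset.univ.image (RANKAux.f r) with hS
  have hm : ∀ i, RANKAux.f r i ∈ S := fun i => Finset.mem_image_of_mem _ (Finset.mem_univ i)
  refine ⟨S.card, fun i => (S.orderIsoOfFin rfl).symm ⟨RANKAux.f r i, hm i⟩, ?_, ?_⟩
  · intro y
    obtain ⟨i, -, hi⟩ := Finset.mem_image.1 ((S.orderIsoOfFin rfl) y).2
    refine ⟨i, ?_⟩
    have h1 : (⟨RANKAux.f r i, hm i⟩ : S) = (S.orderIsoOfFin rfl) y := Subtype.ext hi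
    simp only [h1, OrderIso.symm_apply_apply]
  · intro i j
    rw [OrderIso.le_iff_le, RANKAux.f_le r i j]
    exact Iff.rfl

end Pool.Agent.U540.PU
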