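import Pool.Agent.U540.PU.Pat

/-!
# Disjoint triples of ordered patterns, and the bounds
-/

set_option autoImplicit false

namespace Pool.Agent.U540.PU

open Pool.Agent.W994.AR Pool.Agent.U540.BP
open Pool.Agent.N455.CS (IsLaw prob productLaw)
open Pool.Agent.U540.PT (rel1 rel1_invar Abs S_PRA S_PRB)

/-- the rank function with the two elements `0` and `1` below all others -/
def cb {n m : ℕ} (c : Fin n → Fin m) : Fin (n + 2) → Fin (m + 2) :=
  Fin.cases (motive := fun _ => Fin (m + 2)) 0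
    (Fin.cases (motive := fun _ => Fin (m + 2)) 1 fun i => (c i).succ.succ)

theorem cb_0 {n m : ℕ} (c : Fin n → Fin m) : ((cb c 0 : Fin (m + 2)) : ℕ) = 0 := rfl

theorem cb_1 {n m : ℕ} (c : Fin n → Fin m) : ((cb c 1 : Fin (m + 2)) : ℕ) = 1 := rfl

theorem cb_s {n m : ℕ} (c : Fin n → Fin m) (i : Fin n) :
    ((cb c i.succ.succ : Fin (m + 2)) : ℕ) = c i + 2 := rfl

/-- the three patterns of the triple -/
def trip {n m : ℕ} (c : Fin n → Fin m) : Fin 3 → Pt (n + 2) :=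
  ![pat fun i => (cb c i : ℕ), mg (fun i => (cb c i : ℕ)) 0, mg (fun i => (cb c i : ℕ)) 1]

theorem trip_ss {n m : ℕ} (c : Fin n → Fin m) (t : Fin 3) (i j : Fin n) :
    (trip c t).1 i.succ.succ j.succ.succ ↔ c i ≤ c j := by
  have h0 : ∀ a ≤ 1, (phi a (cb c i.succ.succ : ℕ) ≤ phi a (cb c j.succ.succ : ℕ) ↔ c i ≤ c j) := by
    intro a ha
    rw [cb_s, cb_s]
    unfold phi
    rw [if_neg (by omega), if_neg (by omega)]
    constructor
    · intro h
      show (c i : ℕ) ≤ c j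
      omega
    · intro h
      have : (c i : ℕ) ≤ c j := h
      omega
  fin_cases t
  · show ((cb c i.succ.succ : ℕ) ≤ (cb c j.succ.succ : ℕ)) ↔ _
    rw [cb_s, cb_s]
    constructor
    · intro h
      show (c i : ℕ) ≤ c j
      omega
    · intro h
      have : (c i : ℕ) ≤ c j := h
      omega
  · exact h0 0 (by omega)
  · exact h0 1 le_rfl

theorem trip_10 {n m : ℕ} (c : Fin n → Fin m) (t : Fin 3) : (trip c t).1 1 0 ↔ t = 1 := by
  fin_cases t
  · show ((1 : ℕ) ≤ 0) ↔ _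
    simp
  · show (phi 0 1 ≤ phi 0 0) ↔ _
    simp [phi]
  · show (phi 1 1 ≤ phi 1 0) ↔ _
    simp [phi]

theorem trip_s1 {n m : ℕ} (c : Fin (n + 1) → Fin m) (hc : Function.Surjective c) (t : Fin 3) :
    (∃ i : Fin (n + 1), (trip c t).1 i.succ.succ 1) ↔ t = 2 := by
  have hm : 0 < m := lt_of_le_of_lt (Nat.zero_le _) (c 0).2
  obtain ⟨i0, hi0⟩ := hc ⟨0, hm⟩
  fin_cases t
  · constructor
    · rintro ⟨i, hi⟩
      have h1 : ((cb c i.succ.succ : ℕ) ≤ 1) := hi
      rw [cb_s] at h1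
      omega
    · intro h
      exact absurd h (by decide)
  · constructor
    · rintro ⟨i, hi⟩
      have h1 : phi 0 (cb c i.succ.succ : ℕ) ≤ phi 0 1 := hi
      rw [cb_s] at h1
      unfold phi at h1
      rw [if_neg (by omega), if_neg (by omega)] at h1
      omega
    · intro h
      exact absurd h (by decide)
  · constructor
    · intro _
      rfl
    · intro _
      refine ⟨i0, ?_⟩
      show phi 1 (cb c i0.succ.succ : ℕ) ≤ phi 1 1
      rw [cb_s, hi0]
      simp [phi]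

theorem trip_inj (hRANK : S_RANK) {n : ℕ} : Function.Injective fun x : Pt (n + 1) × Fin 3 =>
    trip (hRANK _ x.1).choose_spec.choose x.2 := by
  rintro ⟨w, t⟩ ⟨w', t'⟩ h
  have h : trip (hRANK _ w).choose_spec.choose t = trip (hRANK _ w').choose_spec.choose t' := h
  have hw := (hRANK _ w).choose_spec.choose_spec
  have hw' := (hRANK _ w').choose_spec.choose_spec
  have h1 : w = w' := by
    apply Subtype.ext
    funext i j
    apply propext
    rw [hw.2 i j, hw'.2 i j, ← trip_ss _ t i j, ← trip_ss _ t' i j, h]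
  have h2 : t = 1 ↔ t' = 1 := by
    rw [← trip_10 (hRANK _ w).choose_spec.choose t, ← trip_10 (hRANK _ w').choose_spec.choose t', h]
  have h3 : t = 2 ↔ t' = 2 := by
    rw [← trip_s1 (hRANK _ w).choose_spec.choose hw.1 t,
      ← trip_s1 (hRANK _ w').choose_spec.choose hw'.1 t', h]
  have h4 : t = t' := by
    have h5 : ∀ t t' : Fin 3, (t = 1 ↔ t' = 1) → (t = 2 ↔ t' = 2) → t = t' := by decide
    exact h5 t t' h2 h3
  rw [h1, h4]

/-- the pattern with the ranks `0` (outside of `T`) and `1` (in `T`) -/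
noncomputable def two {k : ℕ} (T : Set (Fin k)) : Pt k :=
  open scoped Classical in pat fun i => if i ∈ T then 1 else 0

variable {B : Type} {G : Subgroup (Equiv.Perm B)} {E : B → B → Prop}

theorem b1 (hOCSP : S_OCSP) (hOKA : S_OKA) (hOKB : S_OKB) (hRANK : S_RANK) (hFUA : S_FUA)
    (hPRA : S_PRA) (hPRB : S_PRB) (h : ChainType G E)
    (k : ℕ) [Finite (Orb G (Fin k))] (α β : ℝ) (hα : 0 ≤ α) (hαβ : α ≤ β) (hβ : β ≤ 1)
    (μ : Set (Orb G (Fin k)) → ℝ) (hμ : IsLaw μ) (hA : Abs α β μ) :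
    prob μ (fun Θ => ¬ TractableOrd E (rel1 G Θ)) ≤ fub k * β := by
  obtain ⟨J, hJ⟩ := h.inf
  have := hFUA.2.2 k
  obtain ⟨_, hmono, _, hunion⟩ := hPRB.1 _ μ hμ
  refine (hmono _ (fun Θ => ∃ r : Pt k, oo hRANK G J r ∉ Θ) ?_).trans ?_
  · intro Θ hΘ
    by_contra hcon
    push Not at hcon
    exact hΘ (tractable_of_full hOCSP hOKA hOKB h Θ (full_of_all hRANK h hJ Θ fun r _ => hcon r))
  · exact hunion (Pt k) (fun r Θ => oo hRANK G J r ∉ Θ) β
      (fun r => (hPRA _ α β hα hαβ hβ μ hμ hA).1 _)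

theorem b2 (hOGAD : S_OGAD) (hOSD : S_OSD) (hRANK : S_RANK) (hFUA : S_FUA) (hPRA : S_PRA)
    (hPRB : S_PRB) (h : ChainType G E)
    (k : ℕ) (hk : 3 ≤ k) [Finite (Orb G (Fin k))] (α β : ℝ) (hα : 0 ≤ α) (hαβ : α ≤ β) (hβ : β ≤ 1)
    (μ : Set (Orb G (Fin k)) → ℝ) (hμ : IsLaw μ) (hA : Abs α β μ) :
    prob μ (fun Θ => ¬ PPConstructsK3 (otmpl E (rel1 G Θ))) ≤
      Real.exp (-(α * (1 - β) ^ 2 * fub (k - 2))) := by
  obtain ⟨J, hJ⟩ := h.inf
  obtain ⟨n, rfl⟩ : ∃ n, k = n + 1 + 2 := ⟨k - 3, by omega⟩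
  have := hFUA.2.2 (n + 1)
  obtain ⟨_, hmono, _, _⟩ := hPRB.1 _ μ hμ
  have h1 := (hPRA _ α β hα hαβ hβ μ hμ hA).2.2 (Pt (n + 1))
    (fun w t => oo hRANK G J (trip (hRANK _ w).choose_spec.choose t)) (by
      intro x y hxy
      exact trip_inj hRANK (oo_inj hRANK h hJ hxy))
  refine (hmono _ _ ?_).trans h1
  rintro Θ hΘ w ⟨h2, h3, h4⟩
  have hm : 0 < (hRANK _ w).choose :=
    lt_of_le_of_lt (Nat.zero_le _) ((hRANK _ w).choose_spec.choose 0).2
  exact hΘ (hard_of hOGAD hOSD hRANK h hJ Θ _ (cb (hRANK _ w).choose_spec.choose) ⟨0, by omega⟩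
    ⟨1, by omega⟩ ⟨2, by omega⟩ rfl rfl h2 h3 h4)

/-- the bound for the templates on neither side -/
theorem b3 (hOCSP : S_OCSP) (hOKA : S_OKA) (hOKB : S_OKB) (hOGAD : S_OGAD) (hOSD : S_OSD)
    (hRANK : S_RANK) (hFUA : S_FUA) (hPRA : S_PRA) (hPRB : S_PRB) (h : ChainType G E)
    (k : ℕ) [Finite (Orb G (Fin k))] (α β : ℝ) (hα : 0 ≤ α) (hαβ : α ≤ β) (hβ : β ≤ 1)
    (μ : Set (Orb G (Fin k)) → ℝ) (hμ : IsLaw μ) (hA : Abs α β μ) :
    prob μ (fun Θ => ¬ TractableOrd E (rel1 G Θ) ∧ ¬ PPConstructsK3 (otmpl E (rel1 G Θ))) ≤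
      2 ^ k * β + 2 * β ^ 2 * fub k := by
  classical
  obtain ⟨J, hJ⟩ := h.inf
  have := hFUA.2.2 k
  obtain ⟨_, hmono, hor, hunion⟩ := hPRB.1 _ μ hμ
  obtain ⟨hone, htwo, _⟩ := hPRA _ α β hα hαβ hβ μ hμ hA
  -- the bad event of one pattern
  have hpat : ∀ r : Pt k, ∃ P : Set (Orb G (Fin k)) → Prop, prob μ P ≤ 2 * β ^ 2 ∧
      ∀ Θ, 3 ≤ (hRANK k r).choose → oo hRANK G J r ∉ Θ →
        ¬ PPConstructsK3 (otmpl E (rel1 G Θ)) → P Θ := by
    intro r
    by_cases hr : 3 ≤ (hRANK k r).choose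
    · have hsurj := (hRANK k r).choose_spec.choose_spec.1
      have hrk := rk_pat hRANK r
      have hne : ∀ a : ℕ, a + 1 < (hRANK k r).choose → oo hRANK G J r ≠
          oo hRANK G J (mg (rk hRANK r) a) := by
        intro a ha heq
        have h1 := oo_inj hRANK h hJ heq
        obtain ⟨i, hi⟩ := hsurj ⟨a, by omega⟩
        obtain ⟨j, hj⟩ := hsurj ⟨a + 1, ha⟩
        have hi' : rk hRANK r i = a := congrArg Fin.val hi
        have hj' : rk hRANK r j = a + 1 := congrArg Fin.val hj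
        have h2 : (mg (rk hRANK r) a).1 j i := by
          show phi a (rk hRANK r j) ≤ phi a (rk hRANK r i)
          rw [hi', hj']
          simp [phi]
        rw [← h1, ← hrk] at h2
        have h3 : rk hRANK r j ≤ rk hRANK r i := h2
        omega
      refine ⟨fun Θ => (oo hRANK G J r ∉ Θ ∧ oo hRANK G J (mg (rk hRANK r) 0) ∉ Θ) ∨
        (oo hRANK G J r ∉ Θ ∧ oo hRANK G J (mg (rk hRANK r) 1) ∉ Θ), ?_, ?_⟩
      · have h1 := htwo _ _ (hne 0 (by omega))
        have h2 := htwo _ _ (hne 1 (by omega))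
        have h3 := hor (fun Θ => oo hRANK G J r ∉ Θ ∧ oo hRANK G J (mg (rk hRANK r) 0) ∉ Θ)
          (fun Θ => oo hRANK G J r ∉ Θ ∧ oo hRANK G J (mg (rk hRANK r) 1) ∉ Θ)
        linarith
      · intro Θ _ h1 h2
        by_contra hcon
        push Not at hcon
        have h1' := h1
        rw [← hrk] at h1'
        exact h2 (hard_of hOGAD hOSD hRANK h hJ Θ _ (hRANK k r).choose_spec.choose
          ⟨0, by omega⟩ ⟨1, by omega⟩ ⟨2, by omega⟩ rfl rfl h1' (hcon.1 h1) (hcon.2 h1))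
    · refine ⟨fun _ => ∃ w : Empty, False, ?_, fun Θ h1 => absurd h1 hr⟩
      have h1 := hunion Empty (fun _ _ => False) 0 (fun w => w.elim)
      have h2 : (0 : ℝ) ≤ β ^ 2 := sq_nonneg β
      simp only [mul_zero] at h1
      linarith
  choose P hP1 hP2 using hpat
  refine (hmono _ (fun Θ => (∃ T : Set (Fin k), oo hRANK G J (two T) ∉ Θ) ∨ ∃ r, P r Θ) ?_).trans ?_
  · rintro Θ ⟨h1, h2⟩
    have h3 : ∃ r : Pt k, (∃ i j, ¬ r.1 i j) ∧ oo hRANK G J r ∉ Θ := by
      by_contra hcon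
      push Not at hcon
      exact h1 (tractable_of_full hOCSP hOKA hOKB h Θ (full_of_all hRANK h hJ Θ hcon))
    obtain ⟨r, hr, hrΘ⟩ := h3
    by_cases hW : 3 ≤ (hRANK k r).choose
    · exact Or.inr ⟨r, hP2 r Θ hW hrΘ h2⟩
    · left
      refine ⟨{i | rk hRANK r i = 1}, ?_⟩
      have h4 : two {i | rk hRANK r i = 1} = r := by
        rw [← rk_pat hRANK r]
        unfold two
        congr 1
        funext i
        have h5 : rk hRANK r i < (hRANK k r).choose := ((hRANK k r).choose_spec.choose i).2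
        simp only [rk_pat, Set.mem_ofPred_eq]
        split_ifs with h6
        · exact h6.symm
        · omega
      rw [h4]
      exact hrΘ
  · refine (hor _ _).trans ?_
    have h1 := hunion (Set (Fin k)) (fun T Θ => oo hRANK G J (two T) ∉ Θ) β (fun T => hone _)
    have h2 := hunion (Pt k) P (2 * β ^ 2) hP1
    have h3 : (Nat.card (Set (Fin k)) : ℝ) = 2 ^ k := by
      rw [Nat.card_eq_fintype_card, Fintype.card_set, Fintype.card_fin]
      push_cast
      rfl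
    rw [h3] at h1
    have h4 : (Nat.card (Pt k) : ℝ) = fub k := rfl
    rw [h4] at h2
    linarith

theorem uniform (hOCSP : S_OCSP) (hOKA : S_OKA) (hOKB : S_OKB) (hOGAD : S_OGAD) (hOSD : S_OSD)
    (hRANK : S_RANK) (hFUA : S_FUA) (hFUB : S_FUB) (hPRA : S_PRA) (hPRB : S_PRB)
    (hfin : ∀ n, Finite (Orb G (Fin n))) (h : ChainType G E) (δ : ℝ) (hδ : 0 < δ) :
    ∃ k0 : ℕ, ∀ k : ℕ, k0 ≤ k → ∀ ε : ℝ, 0 ≤ ε → ε ≤ 1 - δ →
      prob (productLaw fun _ : Orb G (Fin k) => 1 - ε) (fun Θ =>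
        ¬ TractableOrd E (rel1 G Θ) ∧ ¬ PPConstructsK3 (otmpl E (rel1 G Θ))) ≤ δ := by
  obtain ⟨k0, hk0⟩ := hFUB hFUA δ hδ
  refine ⟨max k0 3, fun k hk ε hε hε1 => ?_⟩
  have := hfin k
  have hε1' : ε ≤ 1 := by linarith
  obtain ⟨hlaw, hAbs⟩ := hPRB.2 (Orb G (Fin k)) ε hε hε1'
  rcases hk0 k ((le_max_left _ _).trans hk) ε hε hε1 with h1 | h1
  · refine le_trans ?_ h1
    have h2 := b2 hOGAD hOSD hRANK hFUA hPRA hPRB h k ((le_max_right _ _).trans hk) ε ε hε le_rfl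
      hε1' _ hlaw hAbs
    refine ((hPRB.1 _ _ hlaw).2.1 _ _ ?_).trans h2
    exact fun Θ h => h.2
  · exact (b3 hOCSP hOKA hOKB hOGAD hOSD hRANK hFUA hPRA hPRB h k ε ε hε le_rfl hε1' _ hlaw
      hAbs).trans h1

/-- orbits of pairs which are strict partial orders with infinite chains -/
theorem binary {σ : Type} {arB : σ → ℕ} (har : ∀ s, arB s ≤ 2) (𝔹 : Str σ arB B)
    (h𝔹 : Homogeneous 𝔹) (htr : ∀ a b : B, ∃ g ∈ autGroup 𝔹, g a = b) (E : B → B → Prop)
    (hirr : ∀ a, ¬ E a a) (htrans : ∀ a b c, E a b → E b c → E a c)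
    (hinv : ∀ g ∈ autGroup 𝔹, ∀ a b, E a b → E (g a) (g b))
    (horb : ∀ a b a' b', E a b → E a' b' → ∃ g ∈ autGroup 𝔹, g a = a' ∧ g b = b')
    (hinf : ∃ J : ℕ → B, ∀ i j, i < j → E (J i) (J j)) : ChainType (autGroup 𝔹) E := by
  refine ⟨hirr, htrans, hinv, ?_, hinf⟩
  intro n u v hu hv
  have hinj : ∀ w : Fin n → B, (∀ i j, i < j → E (w i) (w j)) → Function.Injective w := by
    intro w hw i j hij
    rcases lt_trichotomy i j with h1 | h1 | h1
    · have := hw i j h1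
      rw [hij] at this
      exact (hirr _ this).elim
    · exact h1
    · have := hw j i h1
      rw [hij] at this
      exact (hirr _ this).elim
  have hui := hinj u hu
  have hvi := hinj v hv
  refine hom_same h𝔹 u v (fun i j => ⟨fun h => by rw [hui h], fun h => by rw [hvi h]⟩) ?_
  intro i s
  have key : ∃ g ∈ autGroup 𝔹, ∀ j, g (u (s j)) = v (s j) := by
    have h2 := har i
    by_cases h0 : arB i = 0
    · refine ⟨1, Subgroup.one_mem _, fun j => absurd j.2 (by omega)⟩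
    · let p : Fin (arB i) := ⟨0, by omega⟩
      let q : Fin (arB i) := ⟨arB i - 1, by omega⟩
      have hpq : ∀ j : Fin (arB i), j = p ∨ j = q := by
        intro j
        have := j.2
        rcases Nat.eq_zero_or_pos (j : ℕ) with hj | hj
        · exact Or.inl (Fin.ext hj)
        · exact Or.inr (Fin.ext (by show (j : ℕ) = arB i - 1; omega))
      rcases lt_trichotomy (s p) (s q) with hs | hs | hs
      · obtain ⟨g, hg, h1, h3⟩ := horb _ _ _ _ (hu _ _ hs) (hv _ _ hs)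
        refine ⟨g, hg, fun j => ?_⟩
        rcases hpq j with rfl | rfl
        · exact h1
        · exact h3
      · obtain ⟨g, hg, h1⟩ := htr (u (s p)) (v (s p))
        refine ⟨g, hg, fun j => ?_⟩
        rcases hpq j with rfl | rfl
        · exact h1
        · rw [← hs]
          exact h1
      · obtain ⟨g, hg, h1, h3⟩ := horb _ _ _ _ (hu _ _ hs) (hv _ _ hs)
        refine ⟨g, hg, fun j => ?_⟩
        rcases hpq j with rfl | rfl
        · exact h3
        · exact h1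
  obtain ⟨g, hg, h1⟩ := key
  have h3 : (v ∘ s) = fun j => g ((u ∘ s) j) := by
    funext j
    exact (h1 j).symm
  rw [h3]
  exact hg i (u ∘ s)

end Pool.Agent.U540.PU
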