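import Pool.Agent.U540.PU.Stm
import Pool.Agent.U540.PT.Pat

/-!
# Ordered patterns of chain tuples
-/

set_option autoImplicit false

namespace Pool.Agent.U540.PU

open Pool.Agent.W994.AR Pool.Agent.U540.BP
open Pool.Agent.U540.PT (rel1 rel1_invar Abs S_PRA S_PRB)

variable {B : Type}

/-- `E` is a strict partial order preserved by `G` with an infinite chain, and the chains of each finite
size are all in one orbit. -/
structure ChainType (G : Subgroup (Equiv.Perm B)) (E : B → B → Prop) : Prop where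
  irrefl : ∀ a, ¬ E a a
  trans : ∀ a b c, E a b → E b c → E a c
  inv : ∀ g ∈ G, ∀ a b, E a b → E (g a) (g b)
  hom : ∀ (n : ℕ) (u v : Fin n → B), (∀ i j, i < j → E (u i) (u j)) →
    (∀ i j, i < j → E (v i) (v j)) → Same G u v
  inf : ∃ J : ℕ → B, ∀ i j, i < j → E (J i) (J j)

variable {G : Subgroup (Equiv.Perm B)} {E : B → B → Prop}

theorem ChainType.asymm (h : ChainType G E) {a b : B} (h1 : E a b) (h2 : E b a) : False :=
  h.irrefl a (h.trans a b a h1 h2)

theorem ChainType.inv_iff (h : ChainType G E) {g : Equiv.Perm B} (hg : g ∈ G) (a b : B) :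
    E (g a) (g b) ↔ E a b := by
  constructor
  · intro h1
    have h2 := h.inv g⁻¹ (G.inv_mem hg) _ _ h1
    simpa using h2
  · exact h.inv g hg a b

/-- the pattern of a rank function -/
def pat {k : ℕ} (c : Fin k → ℕ) : Pt k :=
  ⟨fun i j => c i ≤ c j, fun _ => le_rfl, fun _ _ _ h1 h2 => h1.trans h2, fun _ _ => le_total _ _⟩

/-- chain tuples with the pattern `r` -/
def CTo (E : B → B → Prop) {k : ℕ} (r : Pt k) (v : Fin k → B) : Prop :=
  ∀ i j, r.1 i j ↔ v i = v j ∨ E (v i) (v j)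

theorem cto_eq (h : ChainType G E) {k : ℕ} {r : Pt k} {v : Fin k → B} (hv : CTo E r v) {i j : Fin k}
    (h1 : r.1 i j) (h2 : r.1 j i) : v i = v j := by
  rcases (hv i j).1 h1 with h3 | h3
  · exact h3
  · rcases (hv j i).1 h2 with h4 | h4
    · exact h4.symm
    · exact (h.asymm h3 h4).elim

theorem cto_same (hRANK : S_RANK) (h : ChainType G E) {k : ℕ} {r : Pt k} {v w : Fin k → B}
    (hv : CTo E r v) (hw : CTo E r w) : Same G v w := by
  obtain ⟨m, c, hc, hr⟩ := hRANK k r
  have key : ∀ u : Fin k → B, CTo E r u →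
      (∀ i, u (Function.surjInv hc (c i)) = u i) ∧
      ∀ x y : Fin m, x < y → E (u (Function.surjInv hc x)) (u (Function.surjInv hc y)) := by
    intro u hu
    constructor
    · intro i
      have h1 := Function.surjInv_eq hc (c i)
      exact cto_eq h hu ((hr _ _).2 h1.le) ((hr _ _).2 h1.ge)
    · intro x y hxy
      have h1 := Function.surjInv_eq hc x
      have h2 := Function.surjInv_eq hc y
      have h3 : r.1 (Function.surjInv hc x) (Function.surjInv hc y) := by
        rw [hr, h1, h2]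
        exact hxy.le
      rcases (hu _ _).1 h3 with h4 | h4
      · exfalso
        have h5 : r.1 (Function.surjInv hc y) (Function.surjInv hc x) := (hu _ _).2 (Or.inl h4.symm)
        rw [hr, h1, h2] at h5
        exact absurd h5 (not_le.2 hxy)
      · exact h4
  obtain ⟨g, hg, h1⟩ := h.hom m _ _ (key v hv).2 (key w hw).2
  refine ⟨g, hg, fun i => ?_⟩
  have h2 : g (v (Function.surjInv hc (c i))) = w (Function.surjInv hc (c i)) := h1 (c i)
  rw [(key v hv).1 i, (key w hw).1 i] at h2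
  exact h2

theorem J_iff (h : ChainType G E) {J : ℕ → B} (hJ : ∀ i j, i < j → E (J i) (J j)) (i j : ℕ) :
    i ≤ j ↔ J i = J j ∨ E (J i) (J j) := by
  constructor
  · intro hij
    rcases hij.lt_or_eq with h1 | h1
    · exact Or.inr (hJ i j h1)
    · exact Or.inl (by rw [h1])
  · intro h1
    by_contra h2
    have h3 := hJ j i (not_le.1 h2)
    rcases h1 with h1 | h1
    · rw [h1] at h3
      exact h.irrefl _ h3
    · exact h.asymm h1 h3

/-- the standard tuple of a rank function -/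
def tup (J : ℕ → B) {k : ℕ} (c : Fin k → ℕ) : Fin k → B := fun i => J (c i)

theorem tup_ct (h : ChainType G E) {J : ℕ → B} (hJ : ∀ i j, i < j → E (J i) (J j)) {k : ℕ}
    (c : Fin k → ℕ) : CTo E (pat c) (tup J c) := fun i j => J_iff h hJ (c i) (c j)

/-- a rank function of `r` -/
noncomputable def rk (hRANK : S_RANK) {k : ℕ} (r : Pt k) : Fin k → ℕ :=
  fun i => ((hRANK k r).choose_spec.choose i : ℕ)

theorem rk_pat (hRANK : S_RANK) {k : ℕ} (r : Pt k) : pat (rk hRANK r) = r := by
  apply Subtype.ext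
  funext i j
  exact propext ((hRANK k r).choose_spec.choose_spec.2 i j).symm

/-- the orbit of the chain tuples with the pattern `r` -/
noncomputable def oo (hRANK : S_RANK) (G : Subgroup (Equiv.Perm B)) (J : ℕ → B) {k : ℕ} (r : Pt k) :
    Orb G (Fin k) := Quotient.mk (orb G (Fin k)) (tup J (rk hRANK r))

theorem tup_ct' (hRANK : S_RANK) (h : ChainType G E) {J : ℕ → B}
    (hJ : ∀ i j, i < j → E (J i) (J j)) {k : ℕ} (r : Pt k) : CTo E r (tup J (rk hRANK r)) := by
  have := tup_ct h hJ (rk hRANK r)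
  rwa [rk_pat] at this

theorem mk_eq (hRANK : S_RANK) (h : ChainType G E) {J : ℕ → B}
    (hJ : ∀ i j, i < j → E (J i) (J j)) {k : ℕ} {r : Pt k} {v : Fin k → B} (hv : CTo E r v) :
    Quotient.mk (orb G (Fin k)) v = oo hRANK G J r :=
  Quotient.sound (cto_same hRANK h hv (tup_ct' hRANK h hJ r) : Same G v _)

theorem oo_inj (hRANK : S_RANK) (h : ChainType G E) {J : ℕ → B}
    (hJ : ∀ i j, i < j → E (J i) (J j)) {k : ℕ} {r r' : Pt k}
    (hr : oo hRANK G J r = oo hRANK G J r') : r = r' := by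
  obtain ⟨g, hg, h1⟩ : Same G (tup J (rk hRANK r)) (tup J (rk hRANK r')) := Quotient.exact hr
  apply Subtype.ext
  funext i j
  apply propext
  rw [tup_ct' hRANK h hJ r i j, tup_ct' hRANK h hJ r' i j, ← h1 i, ← h1 j, h.inv_iff hg,
    g.injective.eq_iff]

/-- the pattern of a chain tuple -/
def patV (h : ChainType G E) {k : ℕ} (v : Fin k → B)
    (hv : ∀ i j, v i = v j ∨ E (v i) (v j) ∨ E (v j) (v i)) : Pt k :=
  ⟨fun i j => v i = v j ∨ E (v i) (v j), fun _ => Or.inl rfl, by
    rintro i j l (h1 | h1) (h2 | h2)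
    · exact Or.inl (h1.trans h2)
    · exact Or.inr (h1 ▸ h2)
    · exact Or.inr (h2 ▸ h1)
    · exact Or.inr (h.trans _ _ _ h1 h2), by
    intro i j
    rcases hv i j with h1 | h1 | h1
    · exact Or.inl (Or.inl h1)
    · exact Or.inl (Or.inr h1)
    · exact Or.inr (Or.inr h1)⟩

theorem full_of_all (hRANK : S_RANK) (h : ChainType G E) {J : ℕ → B}
    (hJ : ∀ i j, i < j → E (J i) (J j)) {k : ℕ} (Θ : Set (Orb G (Fin k)))
    (hΘ : ∀ r : Pt k, (∃ i j, ¬ r.1 i j) → oo hRANK G J r ∈ Θ) : FullOrd E (rel1 G Θ) := by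
  refine ⟨h.irrefl, h.trans, ⟨J, hJ⟩, ?_, ?_⟩
  · intro v hnc hv
    show Quotient.mk (orb G (Fin k)) v ∈ Θ
    have hct : CTo E (patV h v hv) v := fun i j => Iff.rfl
    rw [mk_eq hRANK h hJ hct]
    apply hΘ
    obtain ⟨i, j, hij⟩ := hnc
    rcases hv i j with h1 | h1 | h1
    · exact absurd h1 hij
    · refine ⟨j, i, ?_⟩
      rintro (h2 | h2)
      · exact hij h2.symm
      · exact h.asymm h1 h2
    · refine ⟨i, j, ?_⟩
      rintro (h2 | h2)
      · exact hij h2
      · exact h.asymm h1 h2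
  · intro a b hab
    obtain ⟨g, hg, h1⟩ := h.hom 1 (fun _ => a) (fun _ => b)
      (fun i j hij => absurd (Subsingleton.elim i j) hij.ne)
      (fun i j hij => absurd (Subsingleton.elim i j) hij.ne)
    have h2 : g a = b := h1 0
    have := rel1_invar G Θ g hg _ hab
    simp only [h2] at this
    exact this

theorem tractable_of_full (hOCSP : S_OCSP) (hOKA : S_OKA) (hOKB : S_OKB) (h : ChainType G E) {k : ℕ}
    (Θ : Set (Orb G (Fin k))) (hF : FullOrd E (rel1 G Θ)) : TractableOrd E (rel1 G Θ) :=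
  ⟨hOKB hOKA B G E k (rel1 G Θ) hF (rel1_invar G Θ) h.inv h.hom, fun X _ 𝕏 =>
    hOCSP B E k (rel1 G Θ) hF X 𝕏⟩

/-- identification of the ranks `a` and `a + 1` -/
def phi (a x : ℕ) : ℕ := if x ≤ a then x else x - 1

/-- the pattern with the ranks `a` and `a + 1` identified -/
def mg {k : ℕ} (c : Fin k → ℕ) (a : ℕ) : Pt k := pat fun i => phi a (c i)

theorem hard_of (hOGAD : S_OGAD) (hOSD : S_OSD) (hRANK : S_RANK) (h : ChainType G E) {J : ℕ → B}
    (hJ : ∀ i j, i < j → E (J i) (J j)) {k : ℕ} (Θ : Set (Orb G (Fin k)))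
    (m : ℕ) (c : Fin k → Fin m) (a b d : Fin m) (hb : (b : ℕ) = a + 1) (hd : (d : ℕ) = a + 2)
    (hs : oo hRANK G J (pat fun i => (c i : ℕ)) ∉ Θ)
    (hs1 : oo hRANK G J (mg (fun i => (c i : ℕ)) a) ∈ Θ)
    (hs2 : oo hRANK G J (mg (fun i => (c i : ℕ)) b) ∈ Θ) :
    PPConstructsK3 (otmpl E (rel1 G Θ)) := by
  have hmg : ∀ (a b : Fin m), (b : ℕ) = a + 1 → ∀ e : Fin m → B, e a = e b →
      (∀ i j, i < j → ¬ (i = a ∧ j = b) → E (e i) (e j)) →
      CTo E (mg (fun i => (c i : ℕ)) a) (e ∘ c) := by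
    intro a b hab e he hE
    have key : ∀ x y : Fin m, phi a x ≤ phi a y ↔ e x = e y ∨ E (e x) (e y) := by
      intro x y
      unfold phi
      rcases lt_trichotomy x y with hxy | hxy | hxy
      · have hxy' : (x : ℕ) < y := hxy
        by_cases hh : x = a ∧ y = b
        · obtain ⟨rfl, rfl⟩ := hh
          refine ⟨fun _ => Or.inl he, fun _ => ?_⟩
          split_ifs <;> omega
        · refine ⟨fun _ => Or.inr (hE x y hxy hh), fun _ => ?_⟩
          split_ifs <;> omega
      · subst hxy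
        exact ⟨fun _ => Or.inl rfl, fun _ => le_rfl⟩
      · have hxy' : (y : ℕ) < x := hxy
        by_cases hh : y = a ∧ x = b
        · obtain ⟨rfl, rfl⟩ := hh
          refine ⟨fun _ => Or.inl he.symm, fun _ => ?_⟩
          split_ifs <;> omega
        · have h1 := hE y x hxy hh
          constructor
          · intro h2
            exfalso
            have h3 : ¬ ((y : ℕ) = a ∧ (x : ℕ) = b) := by
              rintro ⟨h4, h5⟩
              exact hh ⟨Fin.ext h4, Fin.ext h5⟩
            split_ifs at h2 <;> omega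
          · rintro (h2 | h2)
            · rw [h2] at h1
              exact (h.irrefl _ h1).elim
            · exact (h.asymm h1 h2).elim
    intro i j
    exact key (c i) (c j)
  have hR : PP (otmpl E (rel1 G Θ)) (rel1 G Θ) :=
    PP.rel (𝔸 := otmpl E (rel1 G Θ)) (Sum.inr 0) (fun j : Fin k => j)
  have hE1 : PP (otmpl E (rel1 G Θ)) {v : Fin 2 → B | E (v 0) (v 1)} := by
    have h1 := PP.rel (𝔸 := otmpl E (rel1 G Θ)) (V := Fin 2) (Sum.inl 0) (fun j : Fin 2 => j)
    have h2 : {v : Fin 2 → B | v ∘ (fun j : Fin 2 => j) ∈ otmpl E (rel1 G Θ) (Sum.inl 0)} =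
        {v : Fin 2 → B | E (v 0) (v 1)} := by
      ext v
      show v ∈ ordBase E 0 ↔ _
      simp [ordBase]
    rw [← h2]
    exact h1
  have hE2 : PP (otmpl E (rel1 G Θ)) {v : Fin 2 → B | v 0 = v 1 ∨ E (v 0) (v 1)} := by
    have h1 := PP.rel (𝔸 := otmpl E (rel1 G Θ)) (V := Fin 2) (Sum.inl 1) (fun j : Fin 2 => j)
    have h2 : {v : Fin 2 → B | v ∘ (fun j : Fin 2 => j) ∈ otmpl E (rel1 G Θ) (Sum.inl 1)} =
        {v : Fin 2 → B | v 0 = v 1 ∨ E (v 0) (v 1)} := by
      ext v
      show v ∈ ordBase E 1 ↔ _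
      simp [ordBase]
    rw [← h2]
    exact h1
  refine hOSD hOGAD B _ _ (otmpl E (rel1 G Θ)) E h.irrefl h.trans hE1 hE2 J hJ k (rel1 G Θ) hR m c
    a b d hb hd ?_ ?_ ?_
  · intro e he hmem
    have hct : CTo E (pat fun i => (c i : ℕ)) (e ∘ c) := by
      intro i j
      show (c i : ℕ) ≤ c j ↔ e (c i) = e (c j) ∨ E (e (c i)) (e (c j))
      rcases lt_trichotomy (c i) (c j) with h1 | h1 | h1
      · exact ⟨fun _ => Or.inr (he _ _ h1), fun _ => (show (c i : ℕ) < c j from h1).le⟩
      · rw [h1]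
        exact ⟨fun _ => Or.inl rfl, fun _ => le_rfl⟩
      · have h2 := he _ _ h1
        have h3 : (c j : ℕ) < c i := h1
        constructor
        · intro h4
          omega
        · rintro (h4 | h4)
          · rw [h4] at h2
            exact (h.irrefl _ h2).elim
          · exact (h.asymm h2 h4).elim
    apply hs
    rw [← mk_eq hRANK h hJ hct]
    exact hmem
  · intro e he hE
    show Quotient.mk (orb G (Fin k)) (e ∘ c) ∈ Θ
    rw [mk_eq hRANK h hJ (hmg a b hb e he hE)]
    exact hs1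
  · intro e he hE
    show Quotient.mk (orb G (Fin k)) (e ∘ c) ∈ Θ
    rw [mk_eq hRANK h hJ (hmg b d (by omega) e he hE)]
    exact hs2

end Pool.Agent.U540.PU
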