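import Pool.Agent.U540.PU.Asm
import Pool.Agent.U540.BP.Grid

/-!
# Example: the order of the rational numbers
-/

set_option autoImplicit false

namespace Pool.Agent.U540.PU

open Pool.Agent.W994.AR Pool.Agent.U540.BP

/-- the structure `(ℚ; <)` -/
def ordQ : Str (Fin 1) (fun _ => 2) ℚ := fun _ => {v | v 0 < v 1}

/-- stretching the part above `a` -/
theorem stretch (a x y : ℚ) (hx : a < x) (hy : a < y) :
    ∃ g : ℚ ≃o ℚ, (∀ z, z ≤ a → g z = z) ∧ g x = y := by
  have key : ∀ r : ℚ, 0 < r → StrictMono fun z : ℚ => if z ≤ a then z else a + (z - a) * r := by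
    intro r hr z w hzw
    simp only
    split_ifs with h1 h2 h2
    · exact hzw
    · have : 0 < (w - a) * r := mul_pos (by linarith) hr
      linarith
    · linarith
    · have : (z - a) * r < (w - a) * r := mul_lt_mul_of_pos_right (by linarith) hr
      linarith
  have hinv : ∀ r : ℚ, 0 < r → ∀ z : ℚ, (if (if z ≤ a then z else a + (z - a) * r) ≤ a then
      (if z ≤ a then z else a + (z - a) * r) else
        a + ((if z ≤ a then z else a + (z - a) * r) - a) * r⁻¹) = z := by
    intro r hr z
    by_cases h1 : z ≤ a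
    · simp [h1]
    · have h2 : 0 < (z - a) * r := mul_pos (by linarith) hr
      rw [if_neg h1, if_neg (by linarith)]
      field_simp
      ring
  let r : ℚ := (y - a) / (x - a)
  have hr : 0 < r := div_pos (by linarith) (by linarith)
  let g : ℚ ≃ ℚ :=
    { toFun := fun z => if z ≤ a then z else a + (z - a) * r
      invFun := fun z => if z ≤ a then z else a + (z - a) * r⁻¹
      left_inv := hinv r hr
      right_inv := by
        intro z
        have h1 := hinv r⁻¹ (inv_pos.2 hr) z
        rw [inv_inv] at h1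
        exact h1 }
  refine ⟨⟨g, fun {z w} => (key r hr).le_iff_le⟩, ?_, ?_⟩
  · intro z hz
    show (if z ≤ a then z else a + (z - a) * r) = z
    rw [if_pos hz]
  · show (if x ≤ a then x else a + (x - a) * r) = y
    rw [if_neg (not_le.2 hx)]
    have h1 : x - a ≠ 0 := by
      intro h
      linarith
    show a + (x - a) * ((y - a) / (x - a)) = y
    field_simp
    ring

theorem chain_ext : ∀ (n : ℕ) (u v : Fin n → ℚ), (∀ i j, i < j → u i < u j) →
    (∀ i j, i < j → v i < v j) → ∃ g : ℚ ≃o ℚ, ∀ i, g (u i) = v i := by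
  intro n
  induction n with
  | zero => exact fun u v _ _ => ⟨OrderIso.refl ℚ, fun i => i.elim0⟩
  | succ n ih =>
    intro u v hu hv
    rcases Nat.eq_zero_or_pos n with hn | hn
    · subst hn
      refine ⟨OrderIso.addRight (v 0 - u 0), fun i => ?_⟩
      have : i = 0 := Fin.ext (by
        have := i.2
        show (i : ℕ) = 0
        omega)
      subst this
      show u 0 + (v 0 - u 0) = v 0
      ring
    · obtain ⟨g, hg⟩ := ih (fun i => u i.castSucc) (fun i => v i.castSucc)
        (fun i j hij => hu _ _ (by simpa using hij)) (fun i j hij => hv _ _ (by simpa using hij))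
      let l : Fin n := ⟨n - 1, by omega⟩
      have hl : ∀ i : Fin n, i ≤ l := fun i => by
        show (i : ℕ) ≤ n - 1
        omega
      have h1 : v l.castSucc < g (u (Fin.last n)) := by
        rw [← hg l]
        exact g.strictMono (hu _ _ (Fin.castSucc_lt_last l))
      obtain ⟨g', hg', hg''⟩ := stretch (v l.castSucc) (g (u (Fin.last n))) (v (Fin.last n)) h1
        (hv _ _ (Fin.castSucc_lt_last l))
      refine ⟨g.trans g', fun i => ?_⟩
      refine Fin.lastCases ?_ (fun i => ?_) i
      · exact hg''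
      · show g' (g (u i.castSucc)) = v i.castSucc
        rw [hg i]
        apply hg'
        rcases (hl i).lt_or_eq with h2 | h2
        · exact (hv _ _ (by simpa using h2)).le
        · rw [h2]

theorem iso_mem (g : ℚ ≃o ℚ) : (g.toEquiv : Equiv.Perm ℚ) ∈ autGroup ordQ := by
  intro i v
  show v 0 < v 1 ↔ g (v 0) < g (v 1)
  exact g.lt_iff_lt.symm

theorem ordQ_homogeneous : Homogeneous ordQ := by
  intro F h hinj hh
  have hlt : ∀ x ∈ F, ∀ y ∈ F, (x < y ↔ h x < h y) := by
    intro x hx y hy
    exact hh 0 ![x, y] (by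
      intro j
      fin_cases j
      · exact hx
      · exact hy)
  let u : Fin F.card → ℚ := F.orderEmbOfFin rfl
  have hu : ∀ i, u i ∈ F := fun i => F.orderEmbOfFin_mem rfl i
  have hum : ∀ i j, i < j → u i < u j := fun i j hij => (F.orderEmbOfFin rfl).strictMono hij
  obtain ⟨g, hg⟩ := chain_ext F.card u (fun i => h (u i)) hum
    (fun i j hij => (hlt _ (hu i) _ (hu j)).1 (hum i j hij))
  refine ⟨g.toEquiv, iso_mem g, fun x hx => ?_⟩
  have h1 : x ∈ Set.range (F.orderEmbOfFin rfl) := by
    rw [Finset.range_orderEmbOfFin]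
    exact hx
  obtain ⟨i, rfl⟩ := h1
  exact hg i

theorem ordQ_chainType : ChainType (autGroup ordQ) (fun a b : ℚ => a < b) := by
  refine ⟨fun a => lt_irrefl a, fun a b c => lt_trans, ?_, ?_, ⟨fun n => (n : ℚ), ?_⟩⟩
  · intro g hg a b hab
    exact (hg 0 ![a, b]).1 hab
  · intro n u v hu hv
    obtain ⟨g, hg⟩ := chain_ext n u v hu hv
    exact ⟨g.toEquiv, iso_mem g, hg⟩
  · intro i j hij
    show ((i : ℕ) : ℚ) < ((j : ℕ) : ℚ)
    exact_mod_cast hij

theorem ordQ_finitelyBounded : FinitelyBounded ordQ := by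
  refine ⟨{Y | Y.1 ≤ 3 ∧ ¬ Embeds Y.2 ordQ}, ?_, ?_⟩
  · have h1 : ({Y : Σ n : ℕ, Str (Fin 1) (fun _ => 2) (Fin n) | Y.1 ≤ 3 ∧ ¬ Embeds Y.2 ordQ}) ⊆
        ⋃ m ∈ Finset.range 4, Set.range (fun 𝕐 : Str (Fin 1) (fun _ => 2) (Fin m) =>
          (⟨m, 𝕐⟩ : Σ n : ℕ, Str (Fin 1) (fun _ => 2) (Fin n))) := by
      rintro ⟨m, 𝕐⟩ ⟨hm, _⟩
      simp only [Set.mem_iUnion]
      exact ⟨m, Finset.mem_range.2 (Nat.lt_succ_of_le hm), 𝕐, rfl⟩
    refine Set.Finite.subset ?_ h1
    refine Set.Finite.biUnion (Finset.finite_toSet _) fun m _ => ?_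
    have := finite_str (σ := Fin 1) (fun _ => 2) m
    exact Set.finite_range _
  · intro n 𝕏
    constructor
    · rintro h Y ⟨_, hY⟩ hYX
      exact hY (hYX.trans h)
    · intro h
      have hloc : ∀ x y z : Fin n, ∃ f : Fin n → ℚ, Set.InjOn f {x, y, z} ∧
          ∀ a ∈ ({x, y, z} : Set (Fin n)), ∀ b ∈ ({x, y, z} : Set (Fin n)),
            (![a, b] : Fin 2 → Fin n) ∈ 𝕏 0 ↔ f a < f b := by
        intro x y z
        let S : Finset (Fin n) := {x, y, z}
        have hS : S.card ≤ 3 := Finset.card_le_three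
        let e : Fin S.card ≃ S := S.equivFin.symm
        let 𝕐 : Str (Fin 1) (fun _ => 2) (Fin S.card) :=
          fun c => {v | (fun j => ((e (v j) : S) : Fin n)) ∈ 𝕏 c}
        have hY : Embeds 𝕐 𝕏 := ⟨fun i => ((e i : S) : Fin n),
          Subtype.val_injective.comp e.injective, fun c v => Iff.rfl⟩
        have hYB : Embeds 𝕐 ordQ := by
          by_contra hcon
          exact h ⟨S.card, 𝕐⟩ ⟨hS, hcon⟩ hY
        obtain ⟨g, hg, hgr⟩ := hYB
        have hmem : ∀ a ∈ ({x, y, z} : Set (Fin n)), a ∈ S := by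
          intro a ha
          simp only [Set.mem_insert_iff, Set.mem_singleton_iff] at ha
          simp only [S, Finset.mem_insert, Finset.mem_singleton]
          exact ha
        refine ⟨fun a => if ha : a ∈ S then g (e.symm ⟨a, ha⟩) else 0, ?_, ?_⟩
        · intro a ha b hb hab
          simp only [dif_pos (hmem a ha), dif_pos (hmem b hb)] at hab
          have h1 := e.symm.injective (hg hab)
          exact congrArg Subtype.val h1
        · intro a ha b hb
          simp only [dif_pos (hmem a ha), dif_pos (hmem b hb)]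
          have h1 := hgr 0 ![e.symm ⟨a, hmem a ha⟩, e.symm ⟨b, hmem b hb⟩]
          have h2 : (fun j => ((e ((![e.symm ⟨a, hmem a ha⟩, e.symm ⟨b, hmem b hb⟩] :
              Fin 2 → Fin S.card) j) : S) : Fin n)) = ![a, b] := by
            funext j
            fin_cases j <;> simp
          have h3 : (![a, b] : Fin 2 → Fin n) ∈ 𝕏 0 ↔ (![e.symm ⟨a, hmem a ha⟩,
              e.symm ⟨b, hmem b hb⟩] : Fin 2 → Fin S.card) ∈ 𝕐 0 := by
            show _ ↔ _ ∈ 𝕏 0
            rw [h2]
          rw [h3, h1]
          rfl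
      -- the rank of an element
      let f : Fin n → ℚ := fun a => ({b : Fin n | (![b, a] : Fin 2 → Fin n) ∈ 𝕏 0}.ncard : ℚ)
      have hmono : ∀ a b, (![a, b] : Fin 2 → Fin n) ∈ 𝕏 0 → f a < f b := by
        intro a b hab
        have h1 : {d : Fin n | (![d, a] : Fin 2 → Fin n) ∈ 𝕏 0} ⊂
            {d : Fin n | (![d, b] : Fin 2 → Fin n) ∈ 𝕏 0} := by
          refine Set.ssubset_iff_of_subset ?_ |>.2 ⟨a, hab, ?_⟩
          · intro d hd
            obtain ⟨f, _, hf⟩ := hloc d a b
            exact (hf d (by simp) b (by simp)).2 (((hf d (by simp) a (by simp)).1 hd).trans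
              ((hf a (by simp) b (by simp)).1 hab))
          · intro hd
            obtain ⟨f, _, hf⟩ := hloc a a a
            exact lt_irrefl _ ((hf a (by simp) a (by simp)).1 hd)
        have h2 := Set.ncard_lt_ncard h1 (Set.toFinite _)
        exact Nat.cast_lt.2 h2
      have htot : ∀ a b, a ≠ b → (![a, b] : Fin 2 → Fin n) ∈ 𝕏 0 ∨ (![b, a] : Fin 2 → Fin n) ∈ 𝕏 0 := by
        intro a b hab
        obtain ⟨f, hfi, hf⟩ := hloc a b b
        rcases lt_trichotomy (f a) (f b) with h1 | h1 | h1
        · exact Or.inl ((hf a (by simp) b (by simp)).2 h1)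
        · exact absurd (hfi (by simp) (by simp) h1) hab
        · exact Or.inr ((hf b (by simp) a (by simp)).2 h1)
      refine ⟨f, ?_, ?_⟩
      · intro a b hab
        by_contra hne
        rcases htot a b hne with h1 | h1
        · exact absurd (hmono _ _ h1) (by rw [hab]; exact lt_irrefl _)
        · exact absurd (hmono _ _ h1) (by rw [hab]; exact lt_irrefl _)
      · intro c v
        have hc : c = 0 := Subsingleton.elim _ _
        subst hc
        have h1 : v = ![v 0, v 1] := by
          funext j
          fin_cases j <;> rfl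
        constructor
        · intro hv
          rw [h1] at hv
          exact hmono _ _ hv
        · intro hv
          have hv' : f (v 0) < f (v 1) := hv
          rw [h1]
          by_cases hne : v 0 = v 1
          · rw [hne] at hv'
            exact absurd hv' (lt_irrefl _)
          · rcases htot _ _ hne with h2 | h2
            · exact h2
            · exact absurd (hmono _ _ h2) (not_lt.2 hv'.le)

end Pool.Agent.U540.PU
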