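import Pool.Agent.U540.PT.Stm

/-!
# Project PU: statements (the ordered analogue of project PT)

Random templates `(B; E, E ∪ {=}, R)` of every density, where `E` is a strict partial order with homogeneous
infinite chains, for example `(ℚ; <)` or the generic partial order.
-/

set_option autoImplicit false

namespace Pool.Agent.U540.PU

open Pool.Agent.W994.AR Pool.Agent.U540.BP

/-- the relations `E` and `E ∪ {=}` -/
def ordBase {B : Type} (E : B → B → Prop) : Str (Fin 2) (fun _ => 2) B := fun l =>
  if l = 0 then {v | E (v 0) (v 1)} else {v | v 0 = v 1 ∨ E (v 0) (v 1)}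

/-- the template `(B; E, E ∪ {=}, R)` -/
abbrev otmpl {B : Type} (E : B → B → Prop) {k : ℕ} (R : Set (Fin k → B)) :
    Str (Fin 2 ⊕ Fin 1) (Sum.elim (fun _ => 2) fun _ => k) B :=
  expand (ordBase E) (τ := Fin 1) (k := fun _ => k) (fun _ => R)

/-- `y` can be reached from `x` along the pairs in the first two relations of the instance -/
def Below {X : Type} {k : ℕ} (𝕏 : Str (Fin 2 ⊕ Fin 1) (Sum.elim (fun _ => 2) fun _ => k) X) :
    X → X → Prop :=
  Relation.ReflTransGen fun x y => ∃ l : Fin 2, (![x, y] : Fin 2 → X) ∈ 𝕏 (Sum.inl l)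

/-- The template is on the tractable side: it does not pp-construct `K_3`, and its constraint satisfaction
problem is solved by reachability: an instance has a solution if and only if no pair in the relation `E` of the
instance is contained in a strongly connected component, and `R` contains the constant tuples if some tuple in the
relation `R` of the instance is contained in a strongly connected component. -/
def TractableOrd {B : Type} (E : B → B → Prop) {k : ℕ} (R : Set (Fin k → B)) : Prop :=
  ¬ PPConstructsK3 (otmpl E R) ∧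
    ∀ (X : Type) [Finite X] (𝕏 : Str (Fin 2 ⊕ Fin 1) (Sum.elim (fun _ => 2) fun _ => k) X),
      (∃ f : X → B, ∀ i, ∀ v ∈ 𝕏 i, (fun j => f (v j)) ∈ otmpl E R i) ↔
        (∀ x y, (![x, y] : Fin 2 → X) ∈ 𝕏 (Sum.inl 0) → ¬ Below 𝕏 y x) ∧
        ∀ v : Fin k → X, v ∈ 𝕏 (Sum.inr 0) → (∀ i j, Below 𝕏 (v i) (v j)) →
          ∃ b : B, (fun _ : Fin k => b) ∈ R

/-- **Package OGAD.** A ternary pp-definable relation `S` such that `S (x, y, z)` implies `x < z` and
(`y = x` or `y = z`), and `S` contains `(J a, J a, J b)`, `(J a, J b, J b)` for `a < b`, gives a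
pp-construction of `K_3`.

Proof. For constants `c_1 < … < c_r` (elements of `J`), `w ∈ {c_1, …, c_r}` is pp-definable with
parameters: `∃ w_1 …, S (c_1, w_1, c_2) ∧ S (w_1, w_2, c_3) ∧ …` (with `w` the last one; for `r = 2` it is
`S (c_1, w, c_2)`). Elements of the pp-power of dimension 8: `(p_0, p_1, p_2, q_0, q_1, q_2, y, y')`. The relation
between `(p, q, y, y')` and `(p⁺, q⁺, z, z')`: `p = p⁺`, `q = q⁺`, `y, z ∈ {p_0, p_1, p_2}`,
`y', z' ∈ {q_0, q_1, q_2}` (definable as above); `y` and `y'` have the same index: for all `i ≠ j` not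
(`y = p_i` and `y' = q_j`): `∃ w, S (y, w, y') ∧ w ∈ {p_a : a ≠ i} ∪ {q_b : b ≠ j}`; the same for
`z, z'`; and the index of `y` is not the index of `z'`: for all `i`, `∃ w, S (y, w, z') ∧ w ∈
{p_a : a ≠ i} ∪ {q_b : b ≠ i}`. Membership in the sets of four constants is definable by three atoms
`S`. It contains all pairs of different colours for `p_i = J i`, `q_i = J (3 + i)`,
`(y, y') = (J i, J (3 + i))`. Conversely `g (p, q, y, y') = ` the first `i` with `y = p_i` (if `y = p_i` for two `i`,
or `i` and `j` agree, use the formulas to see that edges still have different colours; irreflexivity and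
transitivity of `E` and `S (x, y, z) → E x z` give `p_0 < p_1 < p_2 < q_0 < q_1 < q_2` on the edges if you also
require `∃ w, S (p_i, w, p_(i+1))`, etc., in the definition of the edges, so all indices are unique). -/
def S_OGAD : Prop :=
  ∀ (B ι : Type) (ar : ι → ℕ) (𝔸 : Str ι ar B) (E : B → B → Prop),
    (∀ a, ¬ E a a) → (∀ a b c, E a b → E b c → E a c) → ∀ J : ℕ → B, (∀ i j, i < j → E (J i) (J j)) →
    ∀ S : B → B → B → Prop, PP 𝔸 {v : Fin 3 → B | S (v 0) (v 1) (v 2)} →
    (∀ x y z, S x y z → E x z ∧ (y = x ∨ y = z)) →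
    (∀ a b, a < b → S (J a) (J a) (J b) ∧ S (J a) (J b) (J b)) → PPConstructsK3 𝔸

/-- **Package OSD.** The pattern `c` with `m` values is missing in `R` for all chains `e`, but present if the
values number `a` and `a + 1`, or `a + 1` and `a + 2`, are identified.
Proof: apply `S_OGAD` to the sequence `i ↦ J (m + i)` and to the relation `S (x, y, z)`: there is `e : Fin m → B` with
`e a = x`, `e (a+1) = y`, `e (a+2) = z`, `e ∘ c ∈ R`, `E ∪ {=}` for the pairs `(a, a+1)`, `(a+1, a+2)`, and `E` for all
other pairs `i < j`. If `e a ≠ e (a+1)` and `e (a+1) ≠ e (a+2)` then `e` is a chain, contradiction; and if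
both are equalities, then `E (e a) (e (a+2))` contradicts irreflexivity. For `S (J (m+i), J (m+i), J (m+j))`, `i < j`,
use `e l = J l` for `l < a`, and `e l = J (m + j + l)` for `l > a + 2`. -/
def S_OSD : Prop :=
  S_OGAD → ∀ (B ι : Type) (ar : ι → ℕ) (𝔸 : Str ι ar B) (E : B → B → Prop),
    (∀ a, ¬ E a a) → (∀ a b c, E a b → E b c → E a c) →
    PP 𝔸 {v : Fin 2 → B | E (v 0) (v 1)} → PP 𝔸 {v : Fin 2 → B | v 0 = v 1 ∨ E (v 0) (v 1)} →
    ∀ J : ℕ → B, (∀ i j, i < j → E (J i) (J j)) →
    ∀ (k : ℕ) (R : Set (Fin k → B)), PP 𝔸 R →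
    ∀ (m : ℕ) (c : Fin k → Fin m) (a b d : Fin m), (b : ℕ) = a + 1 → (d : ℕ) = a + 2 →
    (∀ e : Fin m → B, (∀ i j, i < j → E (e i) (e j)) → e ∘ c ∉ R) →
    (∀ e : Fin m → B, e a = e b → (∀ i j, i < j → ¬ (i = a ∧ j = b) → E (e i) (e j)) → e ∘ c ∈ R) →
    (∀ e : Fin m → B, e b = e d → (∀ i j, i < j → ¬ (i = b ∧ j = d) → E (e i) (e j)) → e ∘ c ∈ R) →
    PPConstructsK3 𝔸

/-- the hypotheses on the full relations: `R` contains all nonconstant tuples with entries in a chain -/
def FullOrd {B : Type} (E : B → B → Prop) {k : ℕ} (R : Set (Fin k → B)) : Prop :=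
  (∀ a, ¬ E a a) ∧ (∀ a b c, E a b → E b c → E a c) ∧ (∃ J : ℕ → B, ∀ i j, i < j → E (J i) (J j)) ∧
  (∀ v : Fin k → B, NC v → (∀ i j, v i = v j ∨ E (v i) (v j) ∨ E (v j) (v i)) → v ∈ R) ∧
  ∀ a b : B, (fun _ : Fin k => a) ∈ R → (fun _ : Fin k => b) ∈ R

/-- **Package OCSP.** The constraint satisfaction problem for full relations.
Proof. From left to right: a solution `f` maps `Below x y` to `f x = f y ∨ E (f x) (f y)`, so it is constant on
strongly connected components. From right to left: extend the partial order of the strongly connected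
components (`Below`) to a linear order (`X` finite; `extend_partialOrder` / `LinearExtension` in Mathlib, on the
quotient), and map the components in this order into the chain `J`. Tuples which become nonconstant are in
`R`, the others are contained in one component. -/
def S_OCSP : Prop :=
  ∀ (B : Type) (E : B → B → Prop) (k : ℕ) (R : Set (Fin k → B)), FullOrd E R →
    ∀ (X : Type) [Finite X] (𝕏 : Str (Fin 2 ⊕ Fin 1) (Sum.elim (fun _ => 2) fun _ => k) X),
      (∃ f : X → B, ∀ i, ∀ v ∈ 𝕏 i, (fun j => f (v j)) ∈ otmpl E R i) ↔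
        (∀ x y, (![x, y] : Fin 2 → X) ∈ 𝕏 (Sum.inl 0) → ¬ Below 𝕏 y x) ∧
        ∀ v : Fin k → X, v ∈ 𝕏 (Sum.inr 0) → (∀ i j, Below 𝕏 (v i) (v j)) →
          ∃ b : B, (fun _ : Fin k => b) ∈ R

/-- **Package OKA.** Admissible maps preserve pp-definable relations. `Φ` is a finite nonempty type. `x ≤ y` on `B` means
`x = y ∨ E x y`. Rows are functions `Φ → B`, ordered pointwise. Let `S` be pp-definable in `otmpl E R`, `v φ ∈ S` for
all `φ`, and let `e : V → B` be a tuple with entries in the chain `J` such that `e x = e y` iff the rows of `x` and `y` are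
equal, and `e x ≤ e y` whenever the row of `x` is pointwise `≤` the row of `y`. Then `e ∈ S`.
Proof. Let `u φ` be witnesses. The finitely many rows of `V` and of the bound variables, with the pointwise order, have
a linear extension which agrees on the rows of `V` with the order of the `e x` (the union of the pointwise order and of
the given linear order on a subset is acyclic, as the given order extends the pointwise order). Unfortunately the
positions of the `e x` in `J` may be too close; so use that we may choose another tuple: state the result with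
`J` replaced by the homogeneity of chains: all chains of the same length are in one orbit of a group `G` which
preserves `E` and `R`, hence also `S`. -/
def S_OKA : Prop :=
  ∀ (B : Type) (G : Subgroup (Equiv.Perm B)) (E : B → B → Prop) (k : ℕ) (R : Set (Fin k → B)),
    FullOrd E R → Invar G R → (∀ g ∈ G, ∀ a b, E a b → E (g a) (g b)) →
    (∀ (n : ℕ) (u v : Fin n → B), (∀ i j, i < j → E (u i) (u j)) → (∀ i j, i < j → E (v i) (v j)) →
      Same G u v) →
    ∀ (Φ V : Type) [Finite Φ] [Nonempty Φ] [Finite V] (S : Set (V → B)), PPDef (otmpl E R) S →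
    ∀ (v : Φ → V → B), (∀ φ, v φ ∈ S) → ∀ e : V → B,
      (∀ x y, e x = e y ∨ E (e x) (e y) ∨ E (e y) (e x)) →
      (∀ x y, e x = e y ↔ ∀ φ, v φ x = v φ y) →
      (∀ x y, (∀ φ, v φ x = v φ y ∨ E (v φ x) (v φ y)) → e x = e y ∨ E (e x) (e y)) → e ∈ S

/-- **Package OKB.** Full relations do not give a pp-construction of `K_3`.
Proof. Let `a : Fin 3 → Fin n → B` be the triangle, `x ≤ y` means `x = y ∨ E x y`. On the pairs `(s, p)`,
`s : Fin 4`, `p : Fin n`, put `(s, p) ⊑ (t, q)` if (`s = t` and `a i p ≤ a i q` for all `i`) or (`s ≠ t` and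
`a i p ≤ a j q` for all `i ≠ j`). Two steps with a change of the first coordinate in each give
`a i p ≤ a j q` for all `i, j`; hence if the transitive closure of `⊑` has a cycle through `(s, p)` and `(t, q)`, then
either `s = t` and `a i p = a i q` for all `i` and all the cycle has the same first coordinate, or `a i p = a j q` for
all `i, j`. So there is `b : Fin 4 → Fin n → B` with values in the chain `J`, monotone with respect to `⊑`, and
`b s p = b t q` exactly if the rows `φ ↦ a (φ s) p` and `φ ↦ a (φ t) q`, `φ : Fin 4 → Fin 3`, are equal. For `s ≠ t` apply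
`S_OKA` with `Φ = {φ : Fin 4 → Fin 3 // φ s ≠ φ t}`, `V = Fin n ⊕ Fin n`, `v φ = Sum.elim (a (φ s)) (a (φ t))`,
`e = Sum.elim (b s) (b t)`: so `(b s, b t)` is in the relation for all `s ≠ t`, and `g ∘ b` is an injective map from `Fin 4`
to `Fin 3`. Compare the proof of `not_k3` in `Pool/Agent/U540/BP/Free.lean`. -/
def S_OKB : Prop :=
  S_OKA → ∀ (B : Type) (G : Subgroup (Equiv.Perm B)) (E : B → B → Prop) (k : ℕ)
    (R : Set (Fin k → B)), FullOrd E R → Invar G R → (∀ g ∈ G, ∀ a b, E a b → E (g a) (g b)) →
    (∀ (n : ℕ) (u v : Fin n → B), (∀ i j, i < j → E (u i) (u j)) → (∀ i j, i < j → E (v i) (v j)) →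
      Same G u v) → ¬ PPConstructsK3 (otmpl E R)

/-- total preorders on `Fin k` -/
def Pt (k : ℕ) : Type := {r : Fin k → Fin k → Prop // (∀ i, r i i) ∧ (∀ i j l, r i j → r j l → r i l) ∧
  ∀ i j, r i j ∨ r j i}

/-- the ordered Bell numbers -/
noncomputable def fub (k : ℕ) : ℕ := Nat.card (Pt k)

/-- **Package RANK.** Every total preorder on `Fin k` is given by a surjective rank function. -/
def S_RANK : Prop :=
  ∀ (k : ℕ) (r : Pt k), ∃ (m : ℕ) (c : Fin k → Fin m), Function.Surjective c ∧ ∀ i j, r.1 i j ↔ c i ≤ c j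

/-- **Package FUA.** (1) A total preorder on `Fin (k+1)` is determined by its restriction to `Fin k` and by a code in
`Fin k ⊕ Option (Fin k)`: an element equivalent to the last one, or (if there is none) a maximal element
below the last one, or none. (2) Injection from `Fin k → Fin 16`: compare the values of the map on
`Fin (k+16)` which is the given one on the first `k` elements and the identity on the last 16. (3) as (1), finiteness. -/
def S_FUA : Prop :=
  (∀ k, fub (k + 1) ≤ (2 * k + 1) * fub k) ∧ (∀ k, 16 ^ k ≤ fub (k + 16)) ∧ ∀ k, Finite (Pt k)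

/-- **Package FUB.** As `Pool/Agent/U540/PT/BLB.lean` (package BLB of project PT by helper461, on main), with
`fub` in place of `bell`: now `fub k ≤ (2 * k) ^ 2 * fub (k - 2)`. -/
def S_FUB : Prop :=
  S_FUA → ∀ δ : ℝ, 0 < δ → ∃ k0 : ℕ, ∀ k : ℕ, k0 ≤ k → ∀ ε : ℝ, 0 ≤ ε → ε ≤ 1 - δ →
    Real.exp (-(ε * (1 - ε) ^ 2 * fub (k - 2))) ≤ δ ∨
      2 ^ k * ε + 2 * ε ^ 2 * fub k ≤ δ

end Pool.Agent.U540.PU
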